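import Pool.Agent.H257Z.SK.Local

set_option autoImplicit false
open Complex Set Filter Metric Topology
open scoped ComplexConjugate

namespace Pool.Agent.H257Z.SK

theorem norm_ev : ∀ᶠ w : ℂ in 𝓝[≠] 0, ‖w‖ ∈ Ioo (0 : ℝ) 1 := by
  filter_upwards [self_mem_nhdsWithin, nhdsWithin_le_nhds (ball_mem_nhds (0 : ℂ) one_pos)]
    with w h1 h2
  exact ⟨norm_pos_iff.2 h1, by simpa using h2⟩

theorem tendsto_inv_log : Tendsto (fun w : ℂ => (-Real.log ‖w‖)⁻¹) (𝓝[≠] 0) (𝓝 0) := by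
  have h1 : Tendsto (fun w : ℂ => ‖w‖) (𝓝[≠] 0) (𝓝[>] 0) := tendsto_norm_nhdsNE_zero
  exact (tendsto_neg_atBot_atTop.comp (Real.tendsto_log_nhdsGT_zero.comp h1)).inv_tendsto_atTop

theorem tendsto_inv_log_lg :
    Tendsto (fun w : ℂ => (((-Real.log ‖w‖)⁻¹ : ℝ) : ℂ) * lg w) (𝓝[≠] 0) (𝓝 (-1)) := by
  have h1 : Tendsto (fun w : ℂ => (-Real.log ‖w‖)⁻¹ * (lg w).im) (𝓝[≠] 0) (𝓝 0) := by
    refine tendsto_inv_log.zero_mul_isBoundedUnder_le (isBoundedUnder_of ⟨Real.pi, fun w => ?_⟩)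
    exact lg_im_abs w
  have h2 := (((continuous_ofReal.tendsto 0).comp h1).mul_const I).const_add (-1)
  simp only [ofReal_zero, zero_mul, add_zero] at h2
  refine h2.congr' ?_
  filter_upwards [norm_ev] with w hw
  have h3 : Real.log ‖w‖ ≠ 0 := (Real.log_neg hw.1 hw.2).ne
  apply Complex.ext
  · rw [re_ofReal_mul, lg_re]
    simp only [Function.comp, add_re, neg_re, one_re, mul_re, I_re, mul_zero, ofReal_im, I_im,
      sub_self, add_zero, zero_mul]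
    field_simp
  · rw [im_ofReal_mul]
    simp only [Function.comp, add_im, neg_im, one_im, mul_im, I_re, mul_zero, ofReal_re, I_im,
      neg_zero, zero_add, mul_one, add_zero]

theorem asym {P Q : ℂ → ℂ} (Pa : AnalyticAt ℂ P 0) (Qa : AnalyticAt ℂ Q 0)
    (h : P 0 ≠ 0 ∨ Q 0 ≠ 0) :
    ∃ (μ : ℝ → ℝ) (μ₀ : ℝ) (a : ℂ), a ≠ 0 ∧ (∀ r ∈ Ioo (0 : ℝ) 1, 0 < μ r) ∧
      Tendsto (fun w : ℂ => (μ ‖w‖ : ℂ)) (𝓝[≠] 0) (𝓝 μ₀) ∧
      Tendsto (fun w : ℂ => (μ ‖w‖ : ℂ) * (P w + Q w * lg w)) (𝓝[≠] 0) (𝓝 a) ∧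
      Tendsto (fun w : ℂ => (μ ‖w‖ : ℂ) *
        (P w + Q w * lg w + w * (deriv P w + deriv Q w * lg w) + Q w)) (𝓝[≠] 0) (𝓝 a) := by
  have tP : Tendsto P (𝓝[≠] 0) (𝓝 (P 0)) := Pa.continuousAt.tendsto.mono_left nhdsWithin_le_nhds
  have tQ : Tendsto Q (𝓝[≠] 0) (𝓝 (Q 0)) := Qa.continuousAt.tendsto.mono_left nhdsWithin_le_nhds
  have tP' : Tendsto (deriv P) (𝓝[≠] 0) (𝓝 (deriv P 0)) :=
    Pa.deriv.continuousAt.tendsto.mono_left nhdsWithin_le_nhds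
  have tQ' : Tendsto (deriv Q) (𝓝[≠] 0) (𝓝 (deriv Q 0)) :=
    Qa.deriv.continuousAt.tendsto.mono_left nhdsWithin_le_nhds
  have tl : Tendsto (fun w => w * lg w) (𝓝[≠] 0) (𝓝 0) :=
    tendsto_mul_lg.mono_left nhdsWithin_le_nhds
  have ti : Tendsto (fun w : ℂ => w) (𝓝[≠] 0) (𝓝 0) := tendsto_id.mono_left nhdsWithin_le_nhds
  have tR : Tendsto (fun w => w * (deriv P w + deriv Q w * lg w) + Q w) (𝓝[≠] 0) (𝓝 (Q 0)) := by
    have := ((ti.mul tP').add (tQ'.mul tl)).add tQ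
    simp only [zero_mul, mul_zero, zero_add] at this
    refine this.congr fun w => ?_
    ring
  suffices H : ∃ (μ : ℝ → ℝ) (μ₀ : ℝ) (a : ℂ), a ≠ 0 ∧ (∀ r ∈ Ioo (0 : ℝ) 1, 0 < μ r) ∧
      Tendsto (fun w : ℂ => (μ ‖w‖ : ℂ)) (𝓝[≠] 0) (𝓝 μ₀) ∧
      Tendsto (fun w : ℂ => (μ ‖w‖ : ℂ) * (P w + Q w * lg w)) (𝓝[≠] 0) (𝓝 a) ∧
      (μ₀ : ℂ) * Q 0 = 0 by
    obtain ⟨μ, μ₀, a, h1, h2, h3, h4, h5⟩ := H
    refine ⟨μ, μ₀, a, h1, h2, h3, h4, ?_⟩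
    have := h4.add (h3.mul tR)
    rw [h5, add_zero] at this
    refine this.congr fun w => ?_
    ring
  by_cases hQ : Q 0 = 0
  · refine ⟨fun _ => 1, 1, P 0, h.resolve_right (not_not.2 hQ), fun _ _ => one_pos,
      tendsto_const_nhds, ?_, by simp [hQ]⟩
    have t1 : Tendsto (dslope Q 0) (𝓝[≠] 0) (𝓝 (dslope Q 0 0)) :=
      (continuousAt_dslope_same.2 Qa.differentiableAt).tendsto.mono_left nhdsWithin_le_nhds
    have := tP.add (t1.mul tl)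
    simp only [mul_zero, add_zero] at this
    refine this.congr fun w => ?_
    have e := sub_smul_dslope Q 0 w
    simp only [sub_zero, hQ, smul_eq_mul] at e
    rw [← e]
    push_cast
    ring
  · have t0 : Tendsto (fun w : ℂ => (((-Real.log ‖w‖)⁻¹ : ℝ) : ℂ)) (𝓝[≠] 0) (𝓝 ((0 : ℝ) : ℂ)) :=
      (continuous_ofReal.tendsto 0).comp tendsto_inv_log
    refine ⟨fun r => (-Real.log r)⁻¹, 0, -Q 0, neg_ne_zero.2 hQ,
      fun r hr => inv_pos.2 (neg_pos.2 (Real.log_neg hr.1 hr.2)), t0, ?_, by simp⟩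
    have := (t0.mul tP).add (tQ.mul tendsto_inv_log_lg)
    simp only [ofReal_zero, zero_mul, zero_add, mul_neg, mul_one] at this
    refine this.congr fun w => ?_
    ring

theorem open_at {x : ℝ → ℝ} {η : ℝ} (hx : ContinuousOn x (Ioo (-η) η))
    (hm : StrictMonoOn x (Ioo (-η) η) ∨ StrictAntiOn x (Ioo (-η) η)) {t₀ : ℝ}
    (ht : t₀ ∈ Ioo (-η) η) : 𝓝 (x t₀) ≤ map x (𝓝 t₀) := by
  intro V hV
  rw [mem_map] at hV
  obtain ⟨l, u, h1, h2⟩ := mem_nhds_iff_exists_Ioo_subset.1 (inter_mem hV (Ioo_mem_nhds ht.1 ht.2))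
  obtain ⟨a, a1, a2⟩ := exists_between h1.1
  obtain ⟨b, b1, b2⟩ := exists_between h1.2
  have hs : Icc a b ⊆ Ioo l u := Icc_subset_Ioo a1 b2
  have hs' : Icc a b ⊆ Ioo (-η) η := fun t ht => (h2 (hs ht)).2
  have hab : a ≤ b := by linarith
  have ma : a ∈ Ioo (-η) η := hs' (left_mem_Icc.2 hab)
  have mb : b ∈ Ioo (-η) η := hs' (right_mem_Icc.2 hab)
  have him : x '' Ioo a b ⊆ V := by
    rintro _ ⟨t, ht', rfl⟩
    exact (h2 (hs (Ioo_subset_Icc_self ht'))).1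
  rcases hm with hm | hm
  · exact mem_of_superset (Ioo_mem_nhds (hm ma ht a2) (hm ht mb b1))
      ((intermediate_value_Ioo hab (hx.mono hs')).trans him)
  · exact mem_of_superset (Ioo_mem_nhds (hm ht mb b1) (hm ma ht a2))
      ((intermediate_value_Ioo' hab (hx.mono hs')).trans him)

theorem open_at_ne {x : ℝ → ℝ} {t₀ : ℝ} (h : 𝓝 (x t₀) ≤ map x (𝓝 t₀)) :
    𝓝[≠] (x t₀) ≤ map x (𝓝[≠] t₀) := by
  intro V hV
  rw [mem_map] at hV
  have h1 : insert (x t₀) V ∈ map x (𝓝 t₀) := by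
    rw [mem_map]
    refine mem_of_superset (insert_mem_nhds_iff.2 hV) ?_
    rintro t (rfl | ht)
    · exact Or.inl rfl
    · exact Or.inr ht
  exact insert_mem_nhds_iff.1 (h h1)

/-- a graph traced by a monotone parametrisation with continuous slope is continuously differentiable -/
theorem c1_of_param {g x k : ℝ → ℝ} {η : ℝ} (hη : 0 < η) (x0 : x 0 = 0)
    (hx : ContinuousOn x (Ioo (-η) η))
    (hm : StrictMonoOn x (Ioo (-η) η) ∨ StrictAntiOn x (Ioo (-η) η))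
    (hk : ContinuousOn k (Ioo (-η) η))
    (hs : ∀ t₀ ∈ Ioo (-η) η,
      Tendsto (fun t => (g (x t) - g (x t₀)) / (x t - x t₀)) (𝓝[≠] t₀) (𝓝 (k t₀))) :
    HasDerivAt g (k 0) 0 ∧ ∃ ρ, 0 < ρ ∧ ContDiffOn ℝ 1 g (Ioo (-ρ) ρ) := by
  have hd : ∀ t₀ ∈ Ioo (-η) η, HasDerivAt g (k t₀) (x t₀) := by
    intro t₀ ht
    rw [hasDerivAt_iff_tendsto_slope]
    refine Tendsto.mono_left ?_ (open_at_ne (open_at hx hm ht))
    rw [tendsto_map'_iff]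
    refine (hs t₀ ht).congr fun t => ?_
    simp only [Function.comp, slope_def_field]
  have h0 : (0 : ℝ) ∈ Ioo (-η) η := ⟨by linarith, hη⟩
  refine ⟨by simpa [x0] using hd 0 h0, ?_⟩
  have h1 : x '' Ioo (-η) η ∈ 𝓝 (0 : ℝ) := by
    have := open_at hx hm h0 (image_mem_map (Ioo_mem_nhds h0.1 h0.2))
    rwa [x0] at this
  obtain ⟨ρ, ρ0, hρ⟩ := Metric.mem_nhds_iff.1 h1
  rw [Real.ball_eq_Ioo, zero_sub, zero_add] at hρ
  refine ⟨ρ, ρ0, ?_⟩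
  rw [show (1 : WithTop ℕ∞) = 0 + 1 from (zero_add _).symm,
    contDiffOn_succ_iff_deriv_of_isOpen isOpen_Ioo]
  refine ⟨fun s hs' => ?_, by simp, contDiffOn_zero.2 fun s hs' => ?_⟩
  · obtain ⟨t, ht, rfl⟩ := hρ hs'
    exact (hd t ht).differentiableAt.differentiableWithinAt
  · obtain ⟨t, ht, rfl⟩ := hρ hs'
    refine ContinuousAt.continuousWithinAt ?_
    rw [ContinuousAt, (hd t ht).deriv]
    refine Tendsto.mono_left ?_ (open_at hx hm ht)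
    rw [tendsto_map'_iff]
    refine (hk.continuousAt (Ioo_mem_nhds ht.1 ht.2)).tendsto.congr' ?_
    filter_upwards [Ioo_mem_nhds ht.1 ht.2] with t' ht'
    exact (hd t' ht').deriv.symm

end Pool.Agent.H257Z.SK
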