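import Pool.Agent.H257Z.SK.Pde

set_option autoImplicit false
open Set Filter Metric Topology MeasureTheory
open scoped ContDiff
open Pool.Agent.Helper546

namespace Pool.Agent.H257Z.SK

theorem ibp1 {Ω : Set V} (hΩ : IsOpen Ω) {f g : V → ℝ} (i : Fin 2)
    (hf : ContDiffOn ℝ 1 f Ω) (hg : Tst Ω g) :
    ∫ x, f x * dd i g x = - ∫ x, dd i f x * g x := by
  have hg' := hg.dd i
  have hc : ContinuousOn (dd i f) Ω :=
    (hf.continuousOn_fderiv_of_isOpen hΩ le_rfl).clm_apply continuousOn_const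
  refine integral_mul_fderiv_eq_neg_fderiv_mul_of_integrable (v := ee i) ?_ ?_ ?_ ?_ ?_
  · exact integrable_mul_of_tsupport hΩ hc hg.1.continuous hg.2.2 hg.2.1
  · exact integrable_mul_of_tsupport hΩ hf.continuousOn hg'.1.continuous hg'.2.2 hg'.2.1
  · exact integrable_mul_of_tsupport hΩ hf.continuousOn hg.1.continuous hg.2.2 hg.2.1
  · intro x hx
    exact (hf.contDiffAt (hΩ.mem_nhds (hg.2.2 hx))).differentiableAt (by simp)
  · intro x _
    exact hg.1.differentiable (by simp) x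

theorem lim_cont {u : V → ℝ} (uc : ContinuousOn u (ball 0 2)) {r : ℕ → ℝ} (r0 : ∀ n, 0 < r n)
    (rt : Tendsto r atTop (𝓝 0)) {v : V → ℝ}
    (hv : TendstoLocallyUniformly (fun n x => u (r n • x) / r n ^ 3) v atTop) : Continuous v := by
  refine continuous_iff_continuousAt.2 fun x => ?_
  have hM : 0 < ‖x‖ + 1 := by positivity
  have h1 : ContinuousOn v (ball 0 (‖x‖ + 1)) := by
    refine (hv.tendstoLocallyUniformlyOn (s := ball 0 (‖x‖ + 1))).continuousOn
      (Eventually.frequently ?_)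
    filter_upwards [rt.eventually (gt_mem_nhds (div_pos two_pos hM))] with n hn
    refine (uc.comp (by fun_prop) fun y hy => ?_).div_const _
    rw [mem_ball_zero_iff] at hy ⊢
    rw [norm_smul, Real.norm_of_nonneg (r0 n).le]
    rw [lt_div_iff₀ hM] at hn
    nlinarith [r0 n]
  exact h1.continuousAt (isOpen_ball.mem_nhds (by simp))

theorem blow {D : Set V} (hD : IsOpen D) (h0 : (0 : V) ∈ frontier D) {ρ : ℝ} (ρ0 : 0 < ρ)
    (R : V ≃ₗᵢ[ℝ] V) {g : ℝ → ℝ} {L : NNReal} (hg : LipschitzWith L g)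
    (hgr : ∀ x ∈ ball (0 : V) ρ, (x ∈ D ↔ g (R x 0) < R x 1)) {u : V → ℝ}
    (uc : ContDiffOn ℝ 1 u (ball 0 2))
    (hw : ∀ φ : V → ℝ, ContDiff ℝ 1 φ → HasCompactSupport φ → tsupport φ ⊆ ball 0 2 →
      ∫ x, (∑ i : Fin 2, fderiv ℝ u x (EuclideanSpace.single i (1 : ℝ))
              * fderiv ℝ φ x (EuclideanSpace.single i (1 : ℝ)))
        = - ∫ x, x 0 * D.indicator (fun _ => (1 : ℝ)) x * φ x)
    (hz : ∀ x ∈ ball (0 : V) 2, x ∉ closure D → u x = 0)
    {r s : ℕ → ℝ} {v w : V → ℝ} (r0 : ∀ n, 0 < r n) (s0 : ∀ n, 0 < s n)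
    (rt : Tendsto r atTop (𝓝 0)) (st : Tendsto s atTop (𝓝 0))
    (hv : TendstoLocallyUniformly (fun n x => u (r n • x) / r n ^ 3) v atTop)
    (hw' : TendstoLocallyUniformly (fun n x => u (s n • x) / s n ^ 3) w atTop) : v = w := by
  have s1 : ball (0 : V) (min ρ 2) ⊆ ball 0 ρ := ball_subset_ball (min_le_left _ _)
  have s2 : ball (0 : V) (min ρ 2) ⊆ ball 0 2 := ball_subset_ball (min_le_right _ _)
  have uc' := uc.continuousOn_fderiv_of_isOpen isOpen_ball le_rfl
  obtain ⟨-, hl⟩ := pde hD h0 (lt_min ρ0 two_pos) R hg (fun x hx => hgr x (s1 hx))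
    ((uc.differentiableOn (by simp)).mono s2) (uc'.mono s2) (fun ψ hψ => by
      have hψ' : Tst (ball 0 2) ψ := hψ.mono fun x hx => s2 hx.1
      have h := hw ψ (hψ.1.of_le (by norm_cast)) hψ.2.1 hψ'.2.2
      have i1 : ∀ i : Fin 2, Integrable (fun x => u x * dd i (dd i ψ) x) := fun i =>
        integrable_mul_of_tsupport isOpen_ball uc.continuousOn ((hψ'.dd i).dd i).1.continuous
          ((hψ'.dd i).dd i).2.2 ((hψ'.dd i).dd i).2.1
      have i2 : ∀ i : Fin 2, Integrable (fun x => dd i u x * dd i ψ x) := fun i =>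
        integrable_mul_of_tsupport isOpen_ball (uc'.clm_apply continuousOn_const)
          (hψ'.dd i).1.continuous (hψ'.dd i).2.2 (hψ'.dd i).2.1
      simp only [Fin.sum_univ_two] at h
      change ∫ x, (dd 0 u x * dd 0 ψ x + dd 1 u x * dd 1 ψ x) = _ at h
      simp only [lap, mul_add]
      rw [integral_add (i2 0) (i2 1)] at h
      rw [integral_add (i1 0) (i1 1), ibp1 isOpen_ball 0 uc (hψ'.dd 0),
        ibp1 isOpen_ball 1 uc (hψ'.dd 1), ← neg_add, h, neg_neg]
      refine integral_congr_ae (Eventually.of_forall fun x => ?_)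
      by_cases hx : x ∈ D
      · simp [hx]
      · have : ψ x = 0 := image_eq_zero_of_notMem_tsupport fun h => hx (hψ.2.2 h).2
        simp [this]) fun x hx => hz x (s2 hx)
  have vc := lim_cont uc.continuousOn r0 rt hv
  have wc := lim_cont uc.continuousOn s0 st hw'
  have key : ∀ x : V, R x 1 ≠ deriv g 0 * R x 0 → v x = w x := by
    intro x hx
    obtain ⟨l, hl'⟩ := hl x hx
    have a1 := tendsto_nhds_unique (hv.tendstoLocallyUniformlyOn.tendsto_at (mem_univ x))
      (hl'.comp (tendsto_nhdsWithin_iff.2 ⟨rt, Eventually.of_forall r0⟩))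
    have a2 := tendsto_nhds_unique (hw'.tendstoLocallyUniformlyOn.tendsto_at (mem_univ x))
      (hl'.comp (tendsto_nhdsWithin_iff.2 ⟨st, Eventually.of_forall s0⟩))
    rw [a1, a2]
  funext x
  have := Continuous.ext_on (dense_compl_singleton (deriv g 0 * R x 0 - R x 1))
    (f := fun t : ℝ => v (x + t • R.symm (ee 1))) (g := fun t : ℝ => w (x + t • R.symm (ee 1)))
    (by fun_prop) (by fun_prop) fun t ht => key _ fun h => ht (by
      simp [ee] at h
      rw [mem_singleton_iff]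
      linarith)
  simpa using congrFun this 0

end Pool.Agent.H257Z.SK
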