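import Pool.Agent.H257Z.SK.Asym

set_option autoImplicit false
open Complex Set Filter Metric Topology
open scoped ComplexConjugate

namespace Pool.Agent.H257Z.SK

theorem mono_off_zero {x x' : ℝ → ℝ} {η : ℝ} (hη : 0 < η) (hx : ContinuousOn x (Ioo (-η) η))
    (hd : ∀ t ∈ Ioo (-η) η, t ≠ 0 → HasDerivAt x (x' t) t)
    (hp : ∀ t ∈ Ioo (-η) η, t ≠ 0 → 0 < x' t) : StrictMonoOn x (Ioo (-η) η) := by
  have s1 : Ioc (-η) 0 ⊆ Ioo (-η) η := fun t ht => ⟨ht.1, lt_of_le_of_lt ht.2 hη⟩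
  have s2 : Ico 0 η ⊆ Ioo (-η) η := fun t ht => ⟨by linarith [ht.1], ht.2⟩
  have m1 : StrictMonoOn x (Ioc (-η) 0) := by
    refine strictMonoOn_of_deriv_pos (convex_Ioc _ _) (hx.mono s1) fun t ht => ?_
    rw [interior_Ioc] at ht
    have h := s1 (Ioo_subset_Ioc_self ht)
    rw [(hd t h ht.2.ne).deriv]
    exact hp t h ht.2.ne
  have m2 : StrictMonoOn x (Ico 0 η) := by
    refine strictMonoOn_of_deriv_pos (convex_Ico _ _) (hx.mono s2) fun t ht => ?_
    rw [interior_Ico] at ht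
    have h := s2 (Ioo_subset_Ico_self ht)
    rw [(hd t h ht.1.ne').deriv]
    exact hp t h ht.1.ne'
  refine (m1.union m2 (c := 0) (isGreatest_Ioc (by linarith)) (isLeast_Ico hη)).mono ?_
  intro t ht
  rcases le_total t 0 with h | h
  · exact Or.inl ⟨ht.1, h⟩
  · exact Or.inr ⟨h, ht.2⟩

theorem tendsto_real_ne : Tendsto (fun t : ℝ => (t : ℂ)) (𝓝[≠] 0) (𝓝[≠] 0) := by
  refine tendsto_nhdsWithin_iff.2 ⟨tendsto_real.mono_left nhdsWithin_le_nhds, ?_⟩
  filter_upwards [self_mem_nhdsWithin] with t ht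
  simpa using ht

theorem j_one {η : ℝ} (hη : 0 < η) {j : ℕ} (j1 : 1 ≤ j) {φ N : ℂ → ℂ} {μ : ℝ → ℝ} {a : ℂ}
    (a0 : a ≠ 0) (μp : ∀ r ∈ Ioo (0 : ℝ) 1, 0 < μ r)
    (hN : Tendsto (fun w : ℂ => (μ ‖w‖ : ℂ) * N w) (𝓝[≠] 0) (𝓝 a))
    (hφ : ∀ w ∈ HC η, φ w = w ^ j * N w) (e : ℂ ≃ₗᵢ[ℝ] ℂ) {L : ℝ}
    (hΩ : ∀ w ∈ HC η, -(L * |(e (φ w)).re|) ≤ (e (φ w)).im) : j = 1 := by
  by_contra hj
  have j2 : (2 : ℝ) ≤ j := by
    have : 2 ≤ j := by omega
    exact_mod_cast this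
  have an : 0 < ‖a‖ := norm_pos_iff.2 a0
  set d := e.symm (-I) with hd
  have dn : ‖d‖ = 1 := by simp [hd]
  set ω : ℂ := (‖a‖ : ℂ) * d / a with hω
  have ωn : ‖-ω‖ = 1 := by
    rw [norm_neg, hω, norm_div, norm_mul, dn, Complex.norm_real, norm_norm, mul_one,
      div_self an.ne']
  set θ : ℝ := (arg (-ω) + Real.pi) / j with hθ
  have hpi := Real.pi_pos
  have θ0 : 0 ≤ θ := div_nonneg (by linarith [neg_pi_lt_arg (-ω)]) (by linarith)
  have θ1 : θ ≤ Real.pi := by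
    rw [hθ, div_le_iff₀ (by linarith)]
    nlinarith [arg_le_pi (-ω)]
  set u : ℂ := exp (θ * I) with hu
  have un : ‖u‖ = 1 := norm_exp_ofReal_mul_I θ
  have ui : 0 ≤ u.im := by
    rw [hu, exp_ofReal_mul_I_im]; exact Real.sin_nonneg_of_nonneg_of_le_pi θ0 θ1
  have uj : u ^ j = ω := by
    have j0 : (j : ℂ) ≠ 0 := by
      have : (j : ℝ) ≠ 0 := by linarith
      exact_mod_cast this
    have e1 := norm_mul_exp_arg_mul_I (-ω)
    rw [ωn, ofReal_one, one_mul] at e1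
    rw [hu, ← exp_nat_mul, hθ]
    push_cast
    rw [show (j : ℂ) * (((arg (-ω) : ℂ) + Real.pi) / j * I) = arg (-ω) * I + Real.pi * I by
      field_simp, exp_add, e1, exp_pi_mul_I]
    ring
  have u0 : u ≠ 0 := exp_ne_zero _
  have tw : Tendsto (fun r : ℝ => (r : ℂ) * u) (𝓝[>] 0) (𝓝[≠] 0) := by
    refine tendsto_nhdsWithin_iff.2 ⟨?_, ?_⟩
    · simpa using (tendsto_real.mono_left (nhdsWithin_le_nhds (s := Ioi 0))).mul_const u
    · filter_upwards [self_mem_nhdsWithin] with r hr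
      exact mul_ne_zero (by exact_mod_cast (ne_of_gt hr)) u0
  have t1 := (hN.comp tw).const_mul (u ^ j)
  have e2 : u ^ j * a = ‖a‖ • d := by
    rw [uj, hω, real_smul]; field_simp
  rw [e2] at t1
  have t2 := (e.continuous.tendsto _).comp t1
  rw [map_smul, hd, e.apply_symm_apply] at t2
  have t3 := ((((continuous_re.tendsto _).comp t2).abs).const_mul L).neg
  have t4 := (continuous_im.tendsto _).comp t2
  have := le_of_tendsto_of_tendsto t3 t4 (by
    filter_upwards [Ioo_mem_nhdsGT (lt_min hη one_pos)] with r hr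
    have r1 : r < η := lt_of_lt_of_le hr.2 (min_le_left _ _)
    have r2 : r < 1 := lt_of_lt_of_le hr.2 (min_le_right _ _)
    have wn : ‖(r : ℂ) * u‖ = r := by
      rw [norm_mul, un, mul_one, Complex.norm_real, Real.norm_of_nonneg hr.1.le]
    have hw : (r : ℂ) * u ∈ HC η := by
      refine ⟨by rw [mem_ball_zero_iff, wn]; exact r1, ?_⟩
      show 0 ≤ ((r : ℂ) * u).im
      rw [im_ofReal_mul]; exact mul_nonneg hr.1.le ui
    have h1 := hΩ _ hw
    have m0 : 0 < μ r / r ^ j := div_pos (μp r ⟨hr.1, r2⟩) (pow_pos hr.1 j)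
    have e3 : u ^ j * ((μ ‖(r : ℂ) * u‖ : ℂ) * N (r * u)) = (μ r / r ^ j) • φ (r * u) := by
      have : (r : ℂ) ≠ 0 := by exact_mod_cast hr.1.ne'
      rw [hφ _ hw, wn, real_smul, mul_pow]
      push_cast
      field_simp
    simp only [Function.comp, e3, map_smul, smul_re, smul_im, smul_eq_mul, abs_mul, abs_of_pos m0]
    nlinarith)
  simp at this
  exact a0 this

theorem core {δ : ℝ} (hδ : 0 < δ) {φ F : ℂ → ℂ} (φc : ContinuousOn φ (HC δ))
    (φd : DifferentiableOn ℂ φ (HO δ)) (φ0 : φ 0 = 0) (φne : ∀ w ∈ HO δ, φ w ≠ 0)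
    (Fc : ContinuousOn F (HC δ)) (Fd : DifferentiableOn ℂ F (HO δ))
    (hF : ∀ t : ℝ, |t| < δ → F t = (((φ t).re ^ 2 : ℝ) : ℂ))
    (e : ℂ ≃ₗᵢ[ℝ] ℂ) {g : ℝ → ℝ} {L : NNReal} (hg : LipschitzWith L g) (g0 : g 0 = 0)
    (hΓ : ∀ t : ℝ, |t| < δ → (e (φ t)).im = g (e (φ t)).re)
    (hΩ : ∀ w ∈ HC δ, g (e (φ w)).re ≤ (e (φ w)).im) :
    (∃ ρ, 0 < ρ ∧ ContDiffOn ℝ 1 g (Ioo (-ρ) ρ)) ∧
      Tendsto (fun w => F w / φ w ^ 2) (𝓝[HO δ] 0)
        (𝓝 ((((e.symm (1 + deriv g 0 * I)).re : ℂ) / e.symm (1 + deriv g 0 * I)) ^ 2)) := by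
  have gl : ∀ s, |g s| ≤ L * |s| := fun s => by
    simpa [g0, Real.dist_eq] using hg.dist_le_mul s 0
  obtain ⟨η, j, P, Q, G, η0, ηδ, j1, Pa, Qa, Ga, G0, hPQ, hφ, hFG⟩ :=
    struct hδ φc φd φ0 φne Fc Fd hF
  have h0b : (0 : ℂ) ∈ ball (0 : ℂ) η := mem_ball_self η0
  obtain ⟨μ, μ₀, a, a0, μp, tμ, tN, tD⟩ := asym (Pa 0 h0b) (Qa 0 h0b) hPQ
  have hj : j = 1 := j_one η0 j1 a0 μp tN hφ e (L := L) fun w hw =>
    le_trans (neg_le_of_abs_le (gl _)) (hΩ w (HC_mono ηδ hw))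
  subst hj
  simp only [pow_one] at hφ
  set N : ℂ → ℂ := fun w => P w + Q w * lg w with hN
  set D : ℂ → ℂ := fun w => P w + Q w * lg w + w * (deriv P w + deriv Q w * lg w) + Q w with hD
  set α : ℂ →L[ℝ] ℝ := reCLM.comp e.toContinuousLinearEquiv.toContinuousLinearMap with hα
  set β : ℂ →L[ℝ] ℝ := imCLM.comp e.toContinuousLinearEquiv.toContinuousLinearMap with hβ
  have αe : ∀ z, α z = (e z).re := fun z => rfl
  have βe : ∀ z, β z = (e z).im := fun z => rfl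
  have αs : ∀ (r : ℝ) z, α (r * z) = r * α z := fun r z => by
    rw [← real_smul, map_smul, smul_eq_mul]
  have βs : ∀ (r : ℝ) z, β (r * z) = r * β z := fun r z => by
    rw [← real_smul, map_smul, smul_eq_mul]
  have hb : ∀ t : ℝ, |t| < η → (t : ℂ) ∈ ball (0 : ℂ) η := fun t ht => by simpa using ht
  have hder : ∀ t : ℝ, |t| < η → t ≠ 0 → HasDerivAt (fun t : ℝ => φ t) (D t) t := by
    intro t ht t0
    have t0' : (t : ℂ) ≠ 0 := by exact_mod_cast t0
    have h1 := (hasDerivAt_id (t : ℂ)).mul ((Pa _ (hb t ht)).differentiableAt.hasDerivAt.add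
      ((Qa _ (hb t ht)).differentiableAt.hasDerivAt.mul (hasDerivAt_lg (by simp) t0')))
    have h2 : HasDerivAt (fun w : ℂ => w * N w) (D t) t := by
      refine h1.congr_deriv ?_
      simp only [hD, id, Pi.add_apply, Pi.mul_apply]
      field_simp
      ring
    refine h2.comp_ofReal.congr_of_eventuallyEq ?_
    filter_upwards [(isOpen_lt continuous_abs continuous_const).mem_nhds ht] with s hs
    exact hφ _ (real_mem_HC hs)
  have Dc : ∀ t : ℝ, |t| < η → t ≠ 0 → ContinuousAt (fun t : ℝ => D t) t := by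
    intro t ht t0
    have t0' : (t : ℂ) ≠ 0 := by exact_mod_cast t0
    have c1 := (Pa _ (hb t ht)).continuousAt
    have c2 := (Qa _ (hb t ht)).continuousAt
    have c3 := (Pa _ (hb t ht)).deriv.continuousAt
    have c4 := (Qa _ (hb t ht)).deriv.continuousAt
    have c5 := (hasDerivAt_lg (w := t) (by simp) t0').continuousAt
    have : ContinuousAt D t :=
      ((c1.add (c2.mul c5)).add (continuousAt_id.mul (c3.add (c4.mul c5)))).add c2
    exact this.comp continuous_ofReal.continuousAt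
  have ev : ∀ᶠ t : ℝ in 𝓝[≠] 0, t ≠ 0 ∧ |t| < η ∧ 0 < μ ‖(t : ℂ)‖ := by
    filter_upwards [self_mem_nhdsWithin, nhdsWithin_le_nhds (ball_mem_nhds (0 : ℝ) η0),
      tendsto_real_ne.eventually norm_ev] with t h1 h2 h3
    exact ⟨h1, by simpa using h2, μp _ h3⟩
  have αN := (α.continuous.tendsto a).comp (tN.comp tendsto_real_ne)
  have βN := (β.continuous.tendsto a).comp (tN.comp tendsto_real_ne)
  have αD := (α.continuous.tendsto a).comp (tD.comp tendsto_real_ne)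
  have βD := (β.continuous.tendsto a).comp (tD.comp tendsto_real_ne)
  have hΓ' : ∀ t : ℝ, |t| < η → g (α (φ t)) = β (φ t) := fun t ht =>
    (hΓ t (lt_of_lt_of_le ht ηδ)).symm
  have cone : |β a| ≤ L * |α a| := by
    refine le_of_tendsto_of_tendsto βN.abs (αN.abs.const_mul (L : ℝ)) ?_
    filter_upwards [ev] with t ⟨t0, ht, hm⟩
    have h1 := gl (α (φ t))
    rw [hΓ' t ht, hφ _ (real_mem_HC ht), αs, βs, abs_mul, abs_mul] at h1
    simp only [Function.comp, αs, βs, abs_mul, abs_of_pos hm]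
    have h2 : 0 < |t| := abs_pos.2 t0
    have h3 : |β (N t)| ≤ L * |α (N t)| := by
      refine le_of_mul_le_mul_left ?_ h2
      linarith
    nlinarith
  have αa : α a ≠ 0 := by
    intro h
    rw [h, abs_zero, mul_zero] at cone
    have h2 : β a = 0 := abs_nonpos_iff.1 cone
    apply a0
    apply e.injective
    rw [map_zero]
    exact Complex.ext h h2
  have ev2 : ∀ᶠ t : ℝ in 𝓝[≠] 0, 0 < α a * α (D t) := by
    have h1 := (αD.const_mul (α a)).eventually (lt_mem_nhds (mul_self_pos.2 αa))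
    filter_upwards [ev, h1] with t ⟨_, _, hm⟩ h2
    simp only [Function.comp, αs] at h2
    rw [mul_left_comm] at h2
    exact (mul_pos_iff_of_pos_left hm).1 h2
  rw [eventually_nhdsWithin_iff] at ev2
  obtain ⟨r, r0, hr⟩ := Metric.mem_nhds_iff.1 ev2
  set η₂ := min r η with hη₂
  have η₂0 : 0 < η₂ := lt_min r0 η0
  have hI : ∀ t ∈ Ioo (-η₂) η₂, |t| < η ∧ (t ≠ 0 → 0 < α a * α (D t)) := by
    intro t ht
    have h1 : |t| < η₂ := abs_lt.2 ht
    refine ⟨lt_of_lt_of_le h1 (min_le_right _ _), fun t0 => hr ?_ t0⟩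
    simpa using lt_of_lt_of_le h1 (min_le_left _ _)
  have xc : ContinuousOn (fun t : ℝ => α (φ t)) (Ioo (-η₂) η₂) :=
    α.continuous.comp_continuousOn (φc.comp continuous_ofReal.continuousOn
      fun t ht => real_mem_HC (lt_of_lt_of_le (hI t ht).1 ηδ))
  have xd : ∀ t ∈ Ioo (-η₂) η₂, t ≠ 0 → HasDerivAt (fun t : ℝ => α (φ t)) (α (D t)) t :=
    fun t ht t0 => α.hasFDerivAt.comp_hasDerivAt t (hder t (hI t ht).1 t0)
  have yd : ∀ t ∈ Ioo (-η₂) η₂, t ≠ 0 → HasDerivAt (fun t : ℝ => β (φ t)) (β (D t)) t :=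
    fun t ht t0 => β.hasFDerivAt.comp_hasDerivAt t (hder t (hI t ht).1 t0)
  have xne : ∀ t ∈ Ioo (-η₂) η₂, t ≠ 0 → α (D t) ≠ 0 := fun t ht t0 h => by
    have := (hI t ht).2 t0
    rw [h, mul_zero] at this
    exact lt_irrefl _ this
  have xm : StrictMonoOn (fun t : ℝ => α (φ t)) (Ioo (-η₂) η₂) ∨
      StrictAntiOn (fun t : ℝ => α (φ t)) (Ioo (-η₂) η₂) := by
    rcases lt_or_gt_of_ne αa with h | h
    · right
      have := mono_off_zero η₂0 xc.neg (fun t ht t0 => (xd t ht t0).neg) fun t ht t0 => by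
        have := (hI t ht).2 t0
        nlinarith
      exact fun s hs t ht hst => neg_lt_neg_iff.1 (this hs ht hst)
    · left
      exact mono_off_zero η₂0 xc xd fun t ht t0 => (mul_pos_iff_of_pos_left h).1 ((hI t ht).2 t0)
  classical
  obtain ⟨g', hC⟩ := c1_of_param (g := g) (x := fun t : ℝ => α (φ t))
    (k := fun t => if t = 0 then β a / α a else β (D t) / α (D t)) η₂0 (by simp [φ0]) xc xm (by
      intro t ht
      refine ContinuousAt.continuousWithinAt ?_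
      by_cases t0 : t = 0
      · subst t0
        rw [continuousAt_iff_punctured_nhds, if_pos rfl]
        refine (βD.div αD αa).congr' ?_
        filter_upwards [ev] with t ⟨t0, _, hm⟩
        simp only [Pi.div_apply, Function.comp, αs, βs, if_neg t0]
        rw [mul_div_mul_left _ _ hm.ne']
      · have c := Dc t (hI t ht).1 t0
        refine ((β.continuous.continuousAt.comp c).div (α.continuous.continuousAt.comp c)
          (xne t ht t0)).congr ?_
        filter_upwards [isOpen_ne.mem_nhds t0] with s hs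
        simp only [Pi.div_apply, Function.comp, if_neg hs]) (by
      intro t ht
      by_cases t0 : t = 0
      · subst t0
        rw [if_pos rfl]
        refine (βN.div αN αa).congr' ?_
        filter_upwards [ev] with t ⟨t0, ht, hm⟩
        rw [hΓ' t ht, hφ _ (real_mem_HC ht)]
        simp only [Pi.div_apply, Function.comp, αs, βs, ofReal_zero, φ0, map_zero, g0, sub_zero]
        rw [mul_div_mul_left _ _ hm.ne', mul_div_mul_left _ _ t0]
      · rw [if_neg t0]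
        refine ((hasDerivAt_iff_tendsto_slope.1 (yd t ht t0)).div
          (hasDerivAt_iff_tendsto_slope.1 (xd t ht t0)) (xne t ht t0)).congr' ?_
        filter_upwards [self_mem_nhdsWithin, nhdsWithin_le_nhds (Ioo_mem_nhds ht.1 ht.2)]
          with s h1 h2
        rw [hΓ' s (hI s h2).1, hΓ' t (hI t ht).1]
        simp only [Pi.div_apply, slope_def_field]
        rw [div_div_div_cancel_right₀ (sub_ne_zero.2 h1)])
  refine ⟨hC, ?_⟩
  rw [if_pos rfl] at g'
  have hτ : a = (α a : ℂ) * e.symm (1 + deriv g 0 * I) := by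
    apply e.injective
    rw [← real_smul, map_smul, e.apply_symm_apply, g'.deriv]
    apply Complex.ext
    · simp [αe]
    · simp only [smul_im, add_im, one_im, mul_im, ofReal_re, I_im, mul_one, ofReal_im, I_re,
        mul_zero, add_zero, zero_add, smul_eq_mul]
      rw [mul_div_cancel₀ _ αa, βe]
  have hc : (((e.symm (1 + deriv g 0 * I)).re : ℂ) / e.symm (1 + deriv g 0 * I)) ^ 2 =
      ((a.re : ℂ) / a) ^ 2 := by
    have : (α a : ℂ) ≠ 0 := by exact_mod_cast αa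
    conv_rhs => rw [hτ, re_ofReal_mul, ofReal_mul, mul_div_mul_left _ _ this]
  have tG : Tendsto (dslope G 0) (𝓝[≠] 0) (𝓝 (dslope G 0 0)) :=
    (continuousAt_dslope_same.2 Ga.differentiableAt).tendsto.mono_left nhdsWithin_le_nhds
  have t1 := (tG.mul (tμ.div tN a0)).pow 2
  have key : ∀ w ∈ HC η, ‖w‖ ∈ Ioo (0 : ℝ) 1 →
      (dslope G 0 w * ((μ ‖w‖ : ℂ) / (μ ‖w‖ * N w))) ^ 2 = F w / φ w ^ 2 := by
    intro w hw hn
    have w0 : w ≠ 0 := norm_pos_iff.1 hn.1
    have m0 : (μ ‖w‖ : ℂ) ≠ 0 := by exact_mod_cast (μp _ hn).ne'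
    have e1 := sub_smul_dslope G 0 w
    simp only [sub_zero, G0, smul_eq_mul] at e1
    rw [hFG w hw, hφ w hw, ← e1, ← div_pow, mul_div_mul_left _ _ w0, div_mul_cancel_left₀ m0,
      div_eq_mul_inv]
  have t2 : Tendsto (fun t : ℝ => ((((μ ‖(t : ℂ)‖ : ℂ) * N t).re : ℂ) /
      ((μ ‖(t : ℂ)‖ : ℂ) * N t)) ^ 2) (𝓝[≠] 0) (𝓝 (((a.re : ℂ) / a) ^ 2)) :=
    (((continuous_ofReal.tendsto _).comp ((continuous_re.tendsto _).comp
      (tN.comp tendsto_real_ne))).div (tN.comp tendsto_real_ne) a0).pow 2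
  have hlim : (dslope G 0 0 * ((μ₀ : ℂ) / a)) ^ 2 = ((a.re : ℂ) / a) ^ 2 := by
    refine tendsto_nhds_unique (t1.comp tendsto_real_ne) (t2.congr' ?_)
    filter_upwards [ev, tendsto_real_ne.eventually norm_ev] with t ⟨t0, ht, hm⟩ hn
    have m0 : (μ ‖(t : ℂ)‖ : ℂ) ≠ 0 := by exact_mod_cast hm.ne'
    have t0' : (t : ℂ) ≠ 0 := by exact_mod_cast t0
    simp only [Function.comp, Pi.div_apply]
    rw [key _ (real_mem_HC ht) hn, hF t (lt_of_lt_of_le ht ηδ), hφ _ (real_mem_HC ht),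
      re_ofReal_mul, re_ofReal_mul, ofReal_pow, ← div_pow, ofReal_mul, ofReal_mul,
      mul_div_mul_left _ _ m0, mul_div_mul_left _ _ t0']
  rw [hc, ← hlim]
  have hle : 𝓝[HO δ] (0 : ℂ) ≤ 𝓝[≠] 0 := nhdsWithin_mono _ fun w hw h => by
    have h1 : 0 < w.im := hw.2
    rw [mem_singleton_iff.1 h] at h1
    simp at h1
  refine (t1.mono_left hle).congr' ?_
  filter_upwards [self_mem_nhdsWithin, nhdsWithin_le_nhds (ball_mem_nhds (0 : ℂ) η0),
    hle norm_ev] with w h1 h2 h3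
  exact key w ⟨h2, (HO_sub _ h1).2⟩ h3

end Pool.Agent.H257Z.SK
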