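import Pool.Agent.Helper202.Riemann

set_option autoImplicit false
open Complex Set Filter Metric Topology
open scoped ComplexConjugate

namespace Pool.Agent.H257Z.SK

/-- Caratheodory bound -/
theorem cara {h : ℂ → ℂ} (hd : DifferentiableOn ℂ h (ball 0 1)) (h0 : h 0 = 1)
    (hp : ∀ w ∈ ball (0 : ℂ) 1, 0 < (h w).re) {w : ℂ} (hw : w ∈ ball (0 : ℂ) 1) :
    ‖h w‖ * (1 - ‖w‖) ≤ 2 := by
  have hne : ∀ v ∈ ball (0 : ℂ) 1, h v + 1 ≠ 0 := by
    intro v hv e
    have := congrArg Complex.re e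
    simp only [add_re, one_re, zero_re] at this
    linarith [hp v hv]
  have hk : ‖(h w - 1) / (h w + 1)‖ ≤ ‖w‖ := by
    refine norm_le_norm_of_mapsTo_ball (f := fun v => (h v - 1) / (h v + 1)) (R := 1)
      ((hd.sub_const 1).div (hd.add_const 1) hne) ?_ (by simp [h0]) (by simpa using hw)
    intro v hv
    rw [mem_closedBall_zero_iff, norm_div, div_le_one (norm_pos_iff.2 (hne v hv))]
    rw [← sq_le_sq₀ (norm_nonneg _) (norm_nonneg _), Complex.sq_norm, Complex.sq_norm,
      normSq_apply, normSq_apply]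
    simp only [sub_re, one_re, sub_im, one_im, add_re, add_im]
    nlinarith [hp v hv]
  rw [norm_div, div_le_iff₀ (norm_pos_iff.2 (hne w hw))] at hk
  have a1 : ‖h w‖ - 1 ≤ ‖h w - 1‖ := by simpa using norm_sub_norm_le (h w) 1
  have a2 : ‖h w + 1‖ ≤ ‖h w‖ + 1 := by simpa using norm_add_le (h w) 1
  have a3 : ‖w‖ < 1 := by simpa using hw
  nlinarith [norm_nonneg w, mul_le_mul_of_nonneg_left a2 (norm_nonneg w)]

/-- growth of a holomorphic function with values in a proper sector -/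
theorem sector {p : ℂ → ℂ} (hd : DifferentiableOn ℂ p (ball 0 1)) (h0 : p 0 = 1)
    (hne : ∀ w ∈ ball (0 : ℂ) 1, p w ≠ 0) {ε : ℝ} (hε : 0 < ε)
    (hs : ∀ w ∈ ball (0 : ℂ) 1, ε * ‖p w‖ ≤ (p w).re) :
    ∃ β : ℝ, 0 < β ∧ β < 1 ∧ ∀ w ∈ ball (0 : ℂ) 1, ‖p w‖ ≤ (2 / (1 - ‖w‖)) ^ β := by
  have hpi := Real.pi_pos
  set θ := Real.arccos ε with hθ
  have θ0 : 0 ≤ θ := Real.arccos_nonneg _
  have θ1 : θ < Real.pi / 2 := Real.arccos_lt_pi_div_two.2 hε
  have harg : ∀ w ∈ ball (0 : ℂ) 1, |arg (p w)| ≤ θ := by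
    intro w hw
    have hn : 0 < ‖p w‖ := norm_pos_iff.2 (hne w hw)
    have h1 : ε ≤ Real.cos |arg (p w)| := by
      rw [Real.cos_abs, cos_arg (hne w hw), le_div_iff₀ hn]
      exact hs w hw
    rw [← Real.arccos_cos (abs_nonneg _) (abs_arg_le_pi (p w))]
    exact Real.arccos_le_arccos h1
  have hre : ∀ w ∈ ball (0 : ℂ) 1, 0 < (p w).re := fun w hw =>
    lt_of_lt_of_le (mul_pos hε (norm_pos_iff.2 (hne w hw))) (hs w hw)
  set γ : ℝ := Real.pi / (Real.pi / 2 + θ) with hγ
  have hden : 0 < Real.pi / 2 + θ := by linarith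
  have γ1 : 1 < γ := by rw [hγ, one_lt_div hden]; linarith
  have γ2 : γ * θ < Real.pi / 2 := by
    rw [hγ, div_mul_eq_mul_div, div_lt_iff₀ hden]; nlinarith
  have hdh : DifferentiableOn ℂ (fun w => exp (γ * log (p w))) (ball 0 1) :=
    ((hd.clog fun w hw => Or.inl (hre w hw)).const_mul _).cexp
  have hpos : ∀ w ∈ ball (0 : ℂ) 1, 0 < (exp (γ * log (p w))).re := by
    intro w hw
    rw [exp_re]
    refine mul_pos (Real.exp_pos _) (Real.cos_pos_of_mem_Ioo ?_)
    simp only [mul_im, ofReal_re, log_im, ofReal_im, zero_mul, add_zero]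
    have h1 := abs_le.1 (harg w hw)
    constructor <;> nlinarith [h1.1, h1.2]
  refine ⟨γ⁻¹, by positivity, inv_lt_one_of_one_lt₀ γ1, fun w hw => ?_⟩
  have h1 := cara hdh (by simp [h0]) hpos hw
  have a3 : 0 < 1 - ‖w‖ := by have : ‖w‖ < 1 := by simpa using hw
                              linarith
  have hn : 0 < ‖p w‖ := norm_pos_iff.2 (hne w hw)
  have h2 : ‖exp (γ * log (p w))‖ = ‖p w‖ ^ γ := by
    rw [norm_exp, Real.rpow_def_of_pos hn]
    simp [log_re, mul_comm]
  rw [h2, ← le_div_iff₀ a3] at h1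
  rw [Real.le_rpow_inv_iff_of_pos hn.le (by positivity) (by linarith)]
  exact h1

theorem deriv_nonpos_of_le {n : ℝ → ℝ} {d : ℝ} (h : HasDerivAt n d 0)
    (hle : ∀ s ∈ Icc (0 : ℝ) 1, n s ≤ n 0) : d ≤ 0 := by
  have h1 := (hasDerivAt_iff_tendsto_slope_zero.1 h).mono_left (nhdsGT_le_nhdsNE (0 : ℝ))
  refine le_of_tendsto h1 ?_
  filter_upwards [Ioo_mem_nhdsGT (zero_lt_one' ℝ)] with s hs
  simp only [zero_add, smul_eq_mul]
  exact mul_nonpos_of_nonneg_of_nonpos (inv_nonneg.2 hs.1.le)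
    (sub_nonpos.2 (hle s ⟨hs.1.le, hs.2.le⟩))

/-- continuous extension from a derivative bound -/
theorem extend {g : ℂ → ℂ} (hd : DifferentiableOn ℂ g (ball 0 1)) {K β : ℝ} (hK : 0 ≤ K)
    (β0 : 0 < β) (β1 : β < 1)
    (hb : ∀ w ∈ ball (0 : ℂ) 1, ‖w * deriv g w‖ ≤ K * (1 - ‖w‖) ^ (-β)) :
    ∃ Φ : ℂ → ℂ, ContinuousOn Φ (closedBall 0 1) ∧ EqOn Φ g (ball 0 1) := by
  have hmem : ∀ w ∈ closedBall (0 : ℂ) 1, ∀ r : ℝ, 0 ≤ r → r < 1 →
      ‖(r : ℂ) * w‖ ≤ r ∧ (r : ℂ) * w ∈ ball (0 : ℂ) 1 := by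
    intro w hw r r0 r1
    have : ‖(r : ℂ) * w‖ ≤ r := by
      rw [norm_mul, Complex.norm_real, Real.norm_of_nonneg r0]
      exact mul_le_of_le_one_right r0 (by simpa using hw)
    exact ⟨this, mem_ball_zero_iff.2 (lt_of_le_of_lt this r1)⟩
  have hβ : 0 < 1 - β := by linarith
  have key : ∀ w ∈ closedBall (0 : ℂ) 1, ∀ r₁ r₂ : ℝ, 1 / 2 ≤ r₁ → r₁ ≤ r₂ → r₂ < 1 →
      ‖g (r₂ * w) - g (r₁ * w)‖ ≤ 2 * K / (1 - β) * (1 - r₁) ^ (1 - β) := by
    intro w hw r₁ r₂ h1 h2 h3
    have hder : ∀ r ∈ Icc r₁ r₂, HasDerivAt (fun r : ℝ => g (r * w) - g (r₁ * w))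
        (deriv g (r * w) * w) r := by
      intro r hr
      have hm := (hmem w hw r (by linarith [hr.1]) (by linarith [hr.2])).2
      have e1 : HasDerivAt g (deriv g (r * w)) (r * w) :=
        (hd.differentiableAt (isOpen_ball.mem_nhds hm)).hasDerivAt
      have e2 : HasDerivAt (fun v : ℂ => g (v * w)) (deriv g (r * w) * w) r := by
        have := HasDerivAt.comp (r : ℂ) (h₂ := g) (h := fun v : ℂ => v * w) e1
          ((hasDerivAt_id (r : ℂ)).mul_const w)
        simpa [Function.comp_def] using this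
      exact e2.comp_ofReal.sub_const _
    have hB : ∀ r ∈ Icc r₁ r₂, HasDerivAt (fun r : ℝ =>
        2 * K / (1 - β) * ((1 - r₁) ^ (1 - β) - (1 - r) ^ (1 - β))) (2 * K * (1 - r) ^ (-β)) r := by
      intro r hr
      have hr1 : (1 - r) ≠ 0 := by linarith [hr.2]
      have e1 := (((hasDerivAt_id r).const_sub 1).rpow_const (p := 1 - β) (Or.inl hr1))
      have e2 := (e1.const_sub ((1 - r₁) ^ (1 - β))).const_mul (2 * K / (1 - β))
      refine e2.congr_deriv ?_
      simp only [id]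
      rw [show 1 - β - 1 = -β by ring]
      field_simp
    have := image_norm_le_of_norm_deriv_right_le_deriv_boundary' (a := r₁) (b := r₂)
      (f := fun r : ℝ => g (r * w) - g (r₁ * w)) (f' := fun r => deriv g (r * w) * w)
      (fun r hr => (hder r hr).continuousAt.continuousWithinAt)
      (fun r hr => (hder r (Ico_subset_Icc_self hr)).hasDerivWithinAt)
      (B := fun r : ℝ => 2 * K / (1 - β) * ((1 - r₁) ^ (1 - β) - (1 - r) ^ (1 - β)))
      (B' := fun r => 2 * K * (1 - r) ^ (-β)) (by simp)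
      (fun r hr => (hB r hr).continuousAt.continuousWithinAt)
      (fun r hr => (hB r (Ico_subset_Icc_self hr)).hasDerivWithinAt) (by
        intro r hr
        have r0 : 1 / 2 ≤ r := by linarith [hr.1]
        have r1 : r < 1 := by linarith [hr.2]
        obtain ⟨m1, m2⟩ := hmem w hw r (by linarith) r1
        have b1 := hb _ m2
        have b2 : (1 - ‖(r : ℂ) * w‖) ^ (-β) ≤ (1 - r) ^ (-β) :=
          Real.rpow_le_rpow_of_nonpos (by linarith) (by linarith) (by linarith)
        have b3 : ‖(r : ℂ) * w * deriv g (r * w)‖ = r * ‖deriv g (r * w) * w‖ := by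
          rw [mul_assoc, norm_mul, Complex.norm_real, Real.norm_of_nonneg (by linarith),
            mul_comm w]
        rw [b3] at b1
        have b4 := mul_le_mul_of_nonneg_left b2 hK
        nlinarith [norm_nonneg (deriv g (r * w) * w)]) (x := r₂) ⟨h2, le_rfl⟩
    refine this.trans (mul_le_mul_of_nonneg_left ?_ (by positivity))
    have : 0 ≤ (1 - r₂) ^ (1 - β) := Real.rpow_nonneg (by linarith) _
    linarith
  set r : ℕ → ℝ := fun n => 1 - 1 / ((n : ℝ) + 2) with hr
  have r0 : ∀ n, 1 / 2 ≤ r n := by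
    intro n
    have : 1 / ((n : ℝ) + 2) ≤ 1 / 2 :=
      one_div_le_one_div_of_le (by norm_num) (by linarith [Nat.cast_nonneg (α := ℝ) n])
    simp only [hr]; linarith
  have r1 : ∀ n, r n < 1 := by
    intro n
    have : 0 < 1 / ((n : ℝ) + 2) := by positivity
    simp only [hr]; linarith
  have rm : ∀ m n, m ≤ n → r m ≤ r n := by
    intro m n h
    have h' : (m : ℝ) ≤ n := by exact_mod_cast h
    have : 1 / ((n : ℝ) + 2) ≤ 1 / ((m : ℝ) + 2) :=
      one_div_le_one_div_of_le (by positivity) (by linarith)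
    simp only [hr]; linarith
  have rt : Tendsto r atTop (𝓝 1) := by
    have : Tendsto (fun n : ℕ => 1 / ((n : ℝ) + 2)) atTop (𝓝 0) := by
      refine tendsto_const_nhds.div_atTop ?_
      exact tendsto_atTop_add_const_right _ _ tendsto_natCast_atTop_atTop
    have h2 := this.const_sub 1
    rw [sub_zero] at h2
    exact h2
  have bt : Tendsto (fun n => 2 * K / (1 - β) * (1 - r n) ^ (1 - β)) atTop (𝓝 0) := by
    have h1 : Tendsto (fun n => 1 - r n) atTop (𝓝 0) := by simpa using rt.const_sub 1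
    have h2 := (h1.rpow_const (p := 1 - β) (Or.inr hβ.le)).const_mul (2 * K / (1 - β))
    simpa [Real.zero_rpow hβ.ne'] using h2
  have hC : UniformCauchySeqOn (fun n w => g (r n * w)) atTop (closedBall 0 1) := by
    rw [Metric.uniformCauchySeqOn_iff]
    intro ε hε
    obtain ⟨N, hN⟩ := eventually_atTop.1 (bt.eventually (gt_mem_nhds (half_pos hε)))
    refine ⟨N, fun m hm n hn w hw => ?_⟩
    have a1 := key w hw _ _ (r0 N) (rm N m hm) (r1 m)
    have a2 := key w hw _ _ (r0 N) (rm N n hn) (r1 n)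
    have a3 := hN N le_rfl
    rw [← dist_eq_norm] at a1 a2
    have := dist_triangle_right (g (r m * w)) (g (r n * w)) (g (r N * w))
    linarith
  have hT : ∀ w ∈ closedBall (0 : ℂ) 1, Tendsto (fun n => g (r n * w)) atTop
      (𝓝 (limUnder atTop fun n => g (r n * w))) := fun w hw =>
    (hC.cauchySeq hw).tendsto_limUnder
  refine ⟨fun w => limUnder atTop fun n => g (r n * w), ?_, fun w hw => ?_⟩
  · refine (hC.tendstoUniformlyOn_of_tendsto hT).continuousOn (Frequently.of_forall fun n => ?_)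
    refine hd.continuousOn.comp (by fun_prop) fun w hw => ?_
    exact (hmem w hw _ (by linarith [r0 n]) (r1 n)).2
  · refine tendsto_nhds_unique (hT w (ball_subset_closedBall hw)) ?_
    have h1 : Tendsto (fun n => (r n : ℂ) * w) atTop (𝓝 w) := by
      have := ((continuous_ofReal.tendsto 1).comp rt).mul_const w
      simpa using this
    exact (hd.continuousOn.continuousAt (isOpen_ball.mem_nhds hw)).tendsto.comp h1

/-- Riemann map of a bounded domain star-shaped with respect to a disc, extended to the closed disc -/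
theorem ext_map {U : Set ℂ} (hU : IsOpen U) {z₀ : ℂ} {r₀ M : ℝ} (hr : 0 < r₀) (hM : r₀ ≤ M)
    (hz : z₀ ∈ U) (hb : U ⊆ ball z₀ M)
    (hs : ∀ z ∈ U, ∀ p ∈ ball z₀ r₀, ∀ s ∈ Icc (0 : ℝ) 1, (1 - s : ℝ) • z + s • p ∈ U) :
    ∃ Φ ψ : ℂ → ℂ, ContinuousOn Φ (closedBall 0 1) ∧ DifferentiableOn ℂ Φ (ball 0 1) ∧
      MapsTo Φ (ball 0 1) U ∧ MapsTo ψ U (ball 0 1) ∧ (∀ z ∈ U, Φ (ψ z) = z) ∧
      ∀ ζ : ℂ, ‖ζ‖ = 1 → Φ ζ ∉ U := by
  have hM0 : 0 < M := lt_of_lt_of_le hr hM
  have hstar : StarConvex ℝ z₀ U := by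
    intro z hz' a b ha hb' hab
    have := hs z hz' z₀ (mem_ball_self hr) a ⟨ha, by linarith⟩
    rw [show 1 - a = b by linarith, add_comm] at this
    exact this
  have hsc : IsSimplyConnected U := by
    have := hstar.contractibleSpace ⟨z₀, hz⟩
    exact SimplyConnectedSpace.ofContractible _
  have hne : U ≠ univ := by
    intro e
    have : z₀ + M ∈ ball z₀ M := hb (by rw [e]; trivial)
    simp [abs_of_pos hM0] at this
  obtain ⟨g, ψ, gd, gb, gne, g0, ψd, ψm, gψ, ψg⟩ :=
    Pool.Agent.Helper202.Riemann.riemann_inv hU hsc hne hz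
  have hgd : ∀ w ∈ ball (0 : ℂ) 1, HasDerivAt g (deriv g w) w := fun w hw =>
    (gd.differentiableAt (isOpen_ball.mem_nhds hw)).hasDerivAt
  have hψd : ∀ w ∈ ball (0 : ℂ) 1, HasDerivAt ψ (deriv g w)⁻¹ (g w) := by
    intro w hw
    have e1 := (ψd.differentiableAt (hU.mem_nhds (gb.mapsTo hw))).hasDerivAt
    have e2 := e1.comp w (hgd w hw)
    have e3 : HasDerivAt (ψ ∘ g) 1 w := by
      refine (hasDerivAt_id w).congr_of_eventuallyEq ?_
      filter_upwards [isOpen_ball.mem_nhds hw] with v hv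
      exact ψg v hv
    have e4 := e2.unique e3
    refine e1.congr_deriv ?_
    exact eq_inv_of_mul_eq_one_left e4
  have step : ∀ w ∈ ball (0 : ℂ) 1, ∀ l : ℂ, ‖l - 1‖ < r₀ / M →
      0 ≤ (conj w * ((deriv g w)⁻¹ * (l * (g w - z₀)))).re := by
    intro w hw l hl
    have hT : ∀ z ∈ U, ∀ s ∈ Icc (0 : ℝ) 1, z - s * (l * (z - z₀)) ∈ U := by
      intro z hz' s hs'
      have hp : z - l * (z - z₀) ∈ ball z₀ r₀ := by
        rw [mem_ball, dist_eq_norm, show z - l * (z - z₀) - z₀ = -((l - 1) * (z - z₀)) by ring,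
          norm_neg, norm_mul]
        have h1 : ‖z - z₀‖ < M := by simpa [dist_eq_norm] using hb hz'
        rw [lt_div_iff₀ hM0] at hl
        nlinarith [norm_nonneg (l - 1), norm_nonneg (z - z₀)]
      have := hs z hz' _ hp s hs'
      convert this using 1
      simp only [real_smul]
      push_cast
      ring
    have hle : ∀ s ∈ Icc (0 : ℝ) 1, ‖ψ (g w - s * (l * (g w - z₀)))‖ ≤ ‖w‖ := by
      intro s hs'
      refine norm_le_norm_of_mapsTo_ball (f := fun v => ψ (g v - s * (l * (g v - z₀)))) (R := 1)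
        ?_ ?_ ?_ (by simpa using hw)
      · exact ψd.comp (gd.sub (((gd.sub_const z₀).const_mul l).const_mul _))
          fun v hv => hT _ (gb.mapsTo hv) s hs'
      · exact fun v hv => ball_subset_closedBall (ψm (hT _ (gb.mapsTo hv) s hs'))
      · simp only [g0, sub_self, mul_zero, sub_zero]
        rw [← g0]; exact ψg 0 (mem_ball_self one_pos)
    have e1 : HasDerivAt (fun s : ℂ => ψ (g w - s * (l * (g w - z₀))))
        ((deriv g w)⁻¹ * (-(l * (g w - z₀)))) ((0 : ℝ) : ℂ) := by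
      have a1 : HasDerivAt (fun s : ℂ => g w - s * (l * (g w - z₀))) (-(l * (g w - z₀)))
          ((0 : ℝ) : ℂ) := by
        simpa using ((hasDerivAt_id ((0 : ℝ) : ℂ)).mul_const (l * (g w - z₀))).const_sub (g w)
      have a2 : HasDerivAt ψ (deriv g w)⁻¹ (g w - ((0 : ℝ) : ℂ) * (l * (g w - z₀))) := by
        simpa using hψd w hw
      exact a2.comp ((0 : ℝ) : ℂ) a1
    have e2 := (e1.const_mul (conj w)).real_of_complex
    have e3 := deriv_nonpos_of_le e2 (by
      intro s hs'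
      simp only [ofReal_zero, zero_mul, sub_zero, ψg w hw]
      refine (re_le_norm _).trans ?_
      rw [norm_mul, norm_conj, conj_mul', ← ofReal_pow, ofReal_re, sq]
      exact mul_le_mul_of_nonneg_left (hle s hs') (norm_nonneg _))
    simp only [mul_neg, neg_re] at e3
    linarith
  have hds : ∀ w ∈ ball (0 : ℂ) 1, dslope g 0 w ≠ 0 := by
    intro w hw
    by_cases h : w = 0
    · rw [h, dslope_same]; exact gne 0 (mem_ball_self one_pos)
    · rw [dslope_of_ne _ h, slope_def_field]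
      refine div_ne_zero (sub_ne_zero.2 fun e => h ?_) (by simpa using h)
      exact gb.injOn hw (mem_ball_self one_pos) e
  have gd' : DifferentiableOn ℂ (deriv g) (ball 0 1) := gd.deriv isOpen_ball
  have pd : DifferentiableOn ℂ (fun w => deriv g w / dslope g 0 w) (ball 0 1) :=
    gd'.div ((differentiableOn_dslope (ball_mem_nhds _ one_pos)).2 gd) hds
  have hε : 0 < r₀ / M / 2 := by positivity
  have hε1 : r₀ / M / 2 ≤ 1 := by
    have : r₀ / M ≤ 1 := (div_le_one hM0).2 hM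
    linarith
  have hmul : ∀ w ∈ ball (0 : ℂ) 1, w * dslope g 0 w = g w - z₀ := by
    intro w _
    have := sub_smul_dslope g 0 w
    simpa [g0] using this
  obtain ⟨β, β0, β1, hβ⟩ := sector pd (by
      simp only [dslope_same]; exact div_self (gne 0 (mem_ball_self one_pos)))
    (fun w hw => div_ne_zero (gne w hw) (hds w hw)) hε (by
      intro w hw
      by_cases h : w = 0
      · simp only [h, dslope_same, div_self (gne 0 (mem_ball_self one_pos)), norm_one, one_re]
        linarith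
      · set p := deriv g w / dslope g 0 w with hp
        have p0 : p ≠ 0 := div_ne_zero (gne w hw) (hds w hw)
        have pn : 0 < ‖p‖ := norm_pos_iff.2 p0
        have := step w hw (1 - ((r₀ / M / 2 / ‖p‖ : ℝ) : ℂ) * p) (by
          rw [sub_sub_cancel_left, norm_neg, norm_mul, Complex.norm_real,
            Real.norm_of_nonneg (by positivity), div_mul_cancel₀ _ pn.ne']
          linarith)
        rw [← hmul w hw] at this
        have e : conj w * ((deriv g w)⁻¹ * ((1 - ((r₀ / M / 2 / ‖p‖ : ℝ) : ℂ) * p) *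
            (w * dslope g 0 w))) = ((‖w‖ ^ 2 / ‖p‖ ^ 2 : ℝ) : ℂ) *
              (conj p - ((r₀ / M / 2 * ‖p‖ : ℝ) : ℂ)) := by
          have c1 : conj w * w = ((‖w‖ : ℝ) : ℂ) ^ 2 := by rw [conj_mul']
          have c2 : conj p * p = ((‖p‖ : ℝ) : ℂ) ^ 2 := by rw [conj_mul']
          have c3 : deriv g w = p * dslope g 0 w := by
            rw [hp, div_mul_cancel₀ _ (hds w hw)]
          have c4 : ((‖p‖ : ℝ) : ℂ) ≠ 0 := by exact_mod_cast pn.ne'
          have c5 := hds w hw
          have c6 : conj p = ((‖p‖ : ℝ) : ℂ) ^ 2 / p := by rw [← c2]; field_simp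
          rw [c3, c6]
          push_cast
          rw [← c1]
          field_simp
        rw [e, re_ofReal_mul] at this
        have wn : 0 < ‖w‖ := norm_pos_iff.2 h
        have := nonneg_of_mul_nonneg_right this (by positivity)
        simp only [sub_re, conj_re, ofReal_re] at this
        linarith)
  obtain ⟨Φ, Φc, Φe⟩ := extend gd (K := M * 2 ^ β) (by positivity) β0 β1 (by
    intro w hw
    have a3 : 0 < 1 - ‖w‖ := by
      have : ‖w‖ < 1 := by simpa using hw
      linarith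
    have e : w * deriv g w = (g w - z₀) * (deriv g w / dslope g 0 w) := by
      rw [← hmul w hw]; field_simp [hds w hw]
    have h1 : ‖g w - z₀‖ < M := by simpa [dist_eq_norm] using hb (gb.mapsTo hw)
    rw [e, norm_mul, mul_assoc, Real.rpow_neg a3.le, ← div_eq_mul_inv,
      ← Real.div_rpow (by norm_num) a3.le]
    exact mul_le_mul h1.le (hβ w hw) (norm_nonneg _) hM0.le)
  refine ⟨Φ, ψ, Φc, gd.congr Φe, fun w hw => ?_, ψm, fun z hz' => ?_, fun ζ hζ hin => ?_⟩
  · rw [Φe hw]; exact gb.mapsTo hw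
  · rw [Φe (ψm hz')]; exact gψ z hz'
  · have hcl : ζ ∈ closure (ball (0 : ℂ) 1) := by
      rw [closure_ball _ one_ne_zero]; simp [hζ]
    have : (𝓝[ball (0 : ℂ) 1] ζ).NeBot := mem_closure_iff_nhdsWithin_neBot.1 hcl
    have t1 : Tendsto Φ (𝓝[ball (0 : ℂ) 1] ζ) (𝓝 (Φ ζ)) :=
      (Φc ζ (by simp [hζ])).mono ball_subset_closedBall
    have t2 := (ψd.continuousOn.continuousAt (hU.mem_nhds hin)).tendsto.comp t1
    have t3 : Tendsto (ψ ∘ Φ) (𝓝[ball (0 : ℂ) 1] ζ) (𝓝 ζ) := by
      refine (tendsto_id.mono_left nhdsWithin_le_nhds).congr' ?_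
      filter_upwards [self_mem_nhdsWithin] with w hw
      simp only [id, Function.comp, Φe hw, ψg w hw]
    have e := tendsto_nhds_unique t2 t3
    have := ψm hin
    rw [e, mem_ball_zero_iff, hζ] at this
    exact lt_irrefl _ this

end Pool.Agent.H257Z.SK
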