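import Pool.Agent.H257Z.SK.Core
import Pool.Agent.H257Z.SK.Star

set_option autoImplicit false
open Complex Set Filter Metric Topology
open scoped ComplexConjugate

namespace Pool.Agent.H257Z.SK

theorem glob (e : ℂ ≃ₗᵢ[ℝ] ℂ) {g : ℝ → ℝ} {L : NNReal} (hg : LipschitzWith L g) (g0 : g 0 = 0)
    {ρ : ℝ} (ρ0 : 0 < ρ) {f : ℂ → ℂ} (fc : ContinuousOn f (ball 0 ρ))
    (fd : DifferentiableOn ℂ f (ball 0 ρ ∩ {z | g (e z).re < (e z).im}))
    (fΓ : ∀ z ∈ ball (0 : ℂ) ρ, (e z).im = g (e z).re → f z = ((z.re ^ 2 : ℝ) : ℂ)) :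
    (∃ r, 0 < r ∧ ContDiffOn ℝ 1 g (Ioo (-r) r)) ∧
      ∃ c, Tendsto (fun z => f z / z ^ 2) (𝓝[{z | g (e z).re < (e z).im}] 0) (𝓝 c) := by
  have L0 : (0 : ℝ) ≤ L := L.2
  have gl : ∀ s t, |g s - g t| ≤ L * |s - t| := fun s t => by
    simpa [Real.dist_eq] using hg.dist_le_mul s t
  have gl0 : ∀ s, |g s| ≤ L * |s| := fun s => by simpa [g0] using gl s 0
  set a : ℝ := ρ / (3 * L + 5) with ha
  have a0 : 0 < a := by positivity
  have aρ : (3 * L + 5) * a = ρ := by rw [ha]; field_simp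
  have La : 0 ≤ L * a := by positivity
  set U : Set ℂ := {z | |(e z).re| < a ∧ g (e z).re < (e z).im ∧ (e z).im < (3 * L + 3) * a}
    with hU
  have ce : Continuous e := e.continuous
  have cg : Continuous g := hg.continuous
  have Eo : IsOpen {z | g (e z).re < (e z).im} := isOpen_lt (by fun_prop) (by fun_prop)
  have Bo : IsOpen {z | |(e z).re| < a ∧ (e z).im < (3 * L + 3) * a} :=
    IsOpen.and (isOpen_lt (by fun_prop) continuous_const) (isOpen_lt (by fun_prop) continuous_const)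
  have Uo : IsOpen U := by
    have : U = {z | g (e z).re < (e z).im} ∩ {z | |(e z).re| < a ∧ (e z).im < (3 * L + 3) * a} := by
      ext z; simp only [hU, mem_ofPred_eq, mem_inter_iff]; tauto
    rw [this]; exact Eo.inter Bo
  have Un : ∀ z ∈ U, ‖z‖ ≤ (3 * L + 4) * a := by
    rintro z ⟨h1, h2, h3⟩
    rw [← e.norm_map]
    refine (norm_le_abs_re_add_abs_im _).trans ?_
    have h4 := abs_le.1 (gl0 (e z).re)
    have h5 : L * |(e z).re| ≤ L * a := mul_le_mul_of_nonneg_left h1.le L0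
    have h6 : |(e z).im| ≤ (3 * L + 3) * a := abs_le.2 ⟨by linarith [h4.1], h3.le⟩
    linarith
  set z₀ : ℂ := e.symm ((((3 * L + 2) * a : ℝ) : ℂ) * I) with hz₀
  have ez : e z₀ = (((3 * L + 2) * a : ℝ) : ℂ) * I := e.apply_symm_apply _
  have ezr : (e z₀).re = 0 := by rw [ez, re_ofReal_mul, I_re, mul_zero]
  have ezi : (e z₀).im = (3 * L + 2) * a := by rw [ez, im_ofReal_mul, I_im, mul_one]
  have zn : ‖z₀‖ = (3 * L + 2) * a := by
    rw [← e.norm_map, ez, norm_mul, norm_I, mul_one, Complex.norm_real,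
      Real.norm_of_nonneg (by positivity)]
  obtain ⟨Φ, ψ, Φc, Φd, Φm, ψm, Φψ, Φb⟩ := ext_map Uo (z₀ := z₀) (M := (6 * L + 7) * a) a0
    (by nlinarith) (by
      refine ⟨by rw [ezr]; simpa using a0, ?_, ?_⟩
      · rw [ezr, ezi, g0]; positivity
      · rw [ezi]; linarith) (by
      intro z hz
      rw [mem_ball, dist_eq_norm]
      have := norm_sub_le z z₀
      have := Un z hz
      linarith) (by
      rintro z ⟨h1, h2, h3⟩ p hp s ⟨s0, s1⟩
      rw [mem_ball, dist_eq_norm, ← e.norm_map, map_sub] at hp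
      have p1 := lt_of_le_of_lt (abs_re_le_norm _) hp
      have p2 := lt_of_le_of_lt (abs_im_le_norm _) hp
      rw [sub_re, ezr, sub_zero] at p1
      rw [sub_im, ezi] at p2
      have er : (e ((1 - s) • z + s • p)).re = (1 - s) * (e z).re + s * (e p).re := by
        simp only [map_add, map_smul, add_re, smul_re, smul_eq_mul]
      have ei : (e ((1 - s) • z + s • p)).im = (1 - s) * (e z).im + s * (e p).im := by
        simp only [map_add, map_smul, add_im, smul_im, smul_eq_mul]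
      have q1 := abs_lt.1 h1
      have q2 := abs_lt.1 p1
      have q3 := abs_lt.1 p2
      have cvx : ∀ x y c : ℝ, x < c → y < c → (1 - s) * x + s * y < c := by
        intro x y c hx hy
        rcases s0.eq_or_lt with h | h
        · rw [← h]; linarith
        · nlinarith
      refine ⟨?_, ?_, ?_⟩
      · rw [er, abs_lt]
        refine ⟨?_, cvx _ _ _ q1.2 q2.2⟩
        have := cvx (-(e z).re) (-(e p).re) a (by linarith) (by linarith)
        linarith
      · rw [er, ei]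
        have b1 := (abs_le.1 (gl ((1 - s) * (e z).re + s * (e p).re) (e z).re)).2
        rw [show (1 - s) * (e z).re + s * (e p).re - (e z).re = s * ((e p).re - (e z).re) by ring,
          abs_mul, abs_of_nonneg s0] at b1
        have b2 : |(e p).re - (e z).re| ≤ 2 * a := abs_le.2 ⟨by linarith, by linarith⟩
        have b3 : L * (s * |(e p).re - (e z).re|) ≤ L * (s * (2 * a)) := by gcongr
        have b4 := (abs_le.1 (gl0 (e z).re)).2
        have b5 : L * |(e z).re| ≤ L * a := mul_le_mul_of_nonneg_left h1.le L0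
        have := cvx (g (e z).re - (e z).im) (g (e z).re + 2 * (L * a) - (e p).im) 0
          (by linarith) (by linarith)
        linarith
      · rw [ei]
        exact cvx _ _ _ h3 (by linarith))
  have U0 : (0 : ℂ) ∉ U := fun h => by
    have := h.2.1
    simp [g0] at this
  have Φcl : MapsTo Φ (closedBall 0 1) (closure U) := by
    rw [← closure_ball (0 : ℂ) one_ne_zero]
    refine Φm.closure_of_continuousOn ?_
    rw [closure_ball (0 : ℂ) one_ne_zero]; exact Φc
  have clb : closure U ⊆ ball 0 ρ := by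
    refine (closure_minimal (t := closedBall 0 ((3 * L + 4) * a))
      (fun z hz => mem_closedBall_zero_iff.2 (Un z hz)) isClosed_closedBall).trans
      (closedBall_subset_ball (by linarith))
  have cle : closure U ⊆ {z | g (e z).re ≤ (e z).im} :=
    closure_minimal (fun z hz => hz.2.1.le) (isClosed_le (by fun_prop) (by fun_prop))
  have loc : ∀ ζ : ℂ, ‖ζ‖ = 1 → Φ ζ = 0 → (∃ r, 0 < r ∧ ContDiffOn ℝ 1 g (Ioo (-r) r)) ∧
      Tendsto (fun v => f (Φ v) / Φ v ^ 2) (𝓝[ball 0 1] ζ)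
        (𝓝 ((((e.symm (1 + deriv g 0 * I)).re : ℂ) / e.symm (1 + deriv g 0 * I)) ^ 2)) := by
    intro ζ hζ hζ0
    have ζ0 : ζ ≠ 0 := by rintro rfl; simp at hζ
    have nn : ∀ w : ℂ, ‖ζ * exp (I * w)‖ = Real.exp (-w.im) := by
      intro w; rw [norm_mul, hζ, one_mul, norm_exp]; simp
    have m1 : ∀ w : ℂ, 0 ≤ w.im → ζ * exp (I * w) ∈ closedBall (0 : ℂ) 1 := fun w hw => by
      rw [mem_closedBall_zero_iff, nn, Real.exp_le_one_iff]; linarith
    have m2 : ∀ w : ℂ, 0 < w.im → ζ * exp (I * w) ∈ ball (0 : ℂ) 1 := fun w hw => by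
      rw [mem_ball_zero_iff, nn, Real.exp_lt_one_iff]; linarith
    have φc : ContinuousOn (fun w => Φ (ζ * exp (I * w))) {w | 0 ≤ w.im} :=
      Φc.comp (by fun_prop) m1
    have φ0 : Φ (ζ * exp (I * 0)) = 0 := by simpa using hζ0
    obtain ⟨δ, δ0, hδ⟩ := Metric.continuousWithinAt_iff.1 (φc 0 (le_refl (0 : ℝ))) a a0
    have small : ∀ w ∈ HC δ, ‖Φ (ζ * exp (I * w))‖ < a := fun w hw => by
      have := hδ hw.2 hw.1
      rwa [φ0, dist_zero_right] at this
    have φd : DifferentiableOn ℂ (fun w => Φ (ζ * exp (I * w))) (HO δ) :=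
      Φd.comp (by fun_prop) fun w hw => m2 w hw.2
    have onΓ : ∀ t : ℝ, |t| < δ →
        (e (Φ (ζ * exp (I * t)))).im = g (e (Φ (ζ * exp (I * t)))).re := by
      intro t ht
      have h1 : g _ ≤ _ := cle (Φcl (m1 t (by simp)))
      have h2 := Φb (ζ * exp (I * t)) (by rw [nn]; simp)
      have h3 := small t (real_mem_HC ht)
      rw [← e.norm_map] at h3
      by_contra h
      refine h2 ⟨lt_of_le_of_lt (abs_re_le_norm _) h3, lt_of_le_of_ne h1 (Ne.symm h), ?_⟩
      have := (abs_lt.1 (lt_of_le_of_lt (abs_im_le_norm _) h3)).2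
      linarith
    obtain ⟨c1, c2⟩ := core δ0 (φ := fun w => Φ (ζ * exp (I * w)))
      (F := fun w => f (Φ (ζ * exp (I * w)))) (φc.mono inter_subset_right) φd φ0
      (fun w hw h => U0 (h ▸ Φm (m2 w hw.2)))
      (fc.comp (φc.mono inter_subset_right) fun w hw => clb (Φcl (m1 w hw.2)))
      (fd.comp φd fun w hw => ⟨clb (subset_closure (Φm (m2 w hw.2))), (Φm (m2 w hw.2)).2.1⟩)
      (fun t ht => fΓ _ (clb (Φcl (m1 t (by simp)))) (onΓ t ht)) e hg g0 onΓ
      fun w hw => cle (Φcl (m1 w hw.2))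
    refine ⟨c1, ?_⟩
    have ev0 : ∀ᶠ v in 𝓝[ball (0 : ℂ) 1] ζ, v ≠ 0 := nhdsWithin_le_nhds (isOpen_ne.mem_nhds ζ0)
    have t0 : Tendsto (fun v => -I * log (v / ζ)) (𝓝[ball (0 : ℂ) 1] ζ) (𝓝 0) := by
      have h1 : ContinuousAt (fun v => -I * log (v / ζ)) ζ :=
        continuousAt_const.mul (ContinuousAt.clog (by fun_prop)
          (by rw [div_self ζ0]; exact one_mem_slitPlane))
      have h2 := h1.tendsto.mono_left (nhdsWithin_le_nhds (s := ball (0 : ℂ) 1))
      simpa [div_self ζ0] using h2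
    have t1 : Tendsto (fun v => -I * log (v / ζ)) (𝓝[ball (0 : ℂ) 1] ζ) (𝓝[HO δ] 0) := by
      refine tendsto_nhdsWithin_iff.2 ⟨t0, ?_⟩
      filter_upwards [t0.eventually (ball_mem_nhds (0 : ℂ) δ0), ev0, self_mem_nhdsWithin]
        with v h1 h2 h3
      refine ⟨h1, ?_⟩
      show 0 < (-I * log (v / ζ)).im
      have : Real.log ‖v‖ < 0 := Real.log_neg (norm_pos_iff.2 h2) (by simpa using h3)
      simpa [log_re, hζ] using this
    refine (c2.comp t1).congr' ?_
    filter_upwards [ev0] with v hv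
    have : ζ * exp (I * (-I * log (v / ζ))) = v := by
      rw [show I * (-I * log (v / ζ)) = log (v / ζ) by
        linear_combination (-log (v / ζ)) * I_mul_I, exp_log (div_ne_zero hv ζ0)]
      field_simp
    simp only [Function.comp, this]
  have circ : ∀ ζ ∈ closedBall (0 : ℂ) 1, Φ ζ = 0 → ‖ζ‖ = 1 := by
    intro ζ h1 h2
    by_contra h
    exact U0 (h2 ▸ Φm (mem_ball_zero_iff.2 (lt_of_le_of_ne (mem_closedBall_zero_iff.1 h1) h)))
  have cl0 : (0 : ℂ) ∈ closure U := by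
    have t1 : Tendsto (fun s : ℝ => e.symm (s * I)) (𝓝[>] 0) (𝓝 0) := by
      have : Continuous fun s : ℝ => e.symm (s * I) := e.symm.continuous.comp (by fun_prop)
      simpa using (this.tendsto 0).mono_left (nhdsWithin_le_nhds (s := Ioi 0))
    refine mem_closure_of_tendsto t1 ?_
    filter_upwards [Ioo_mem_nhdsGT a0] with s hs
    simp only [hU, mem_ofPred_eq, e.apply_symm_apply, re_ofReal_mul, im_ofReal_mul, I_re, I_im,
      mul_zero, mul_one, g0, abs_zero]
    exact ⟨a0, hs.1, by linarith [hs.2]⟩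
  obtain ⟨ζ, hζ, hζ0⟩ : (0 : ℂ) ∈ Φ '' closedBall 0 1 := by
    refine closure_minimal (fun z hz => ?_)
      ((isCompact_closedBall 0 1).image_of_continuousOn Φc).isClosed cl0
    exact ⟨ψ z, ball_subset_closedBall (ψm hz), Φψ z hz⟩
  refine ⟨(loc ζ (circ ζ hζ hζ0) hζ0).1,
    (((e.symm (1 + deriv g 0 * I)).re : ℂ) / e.symm (1 + deriv g 0 * I)) ^ 2, ?_⟩
  rw [tendsto_iff_ultrafilter]
  intro W hW
  have WU : ∀ᶠ z in (W : Filter ℂ), z ∈ U := by
    have h0 : (0 : ℂ) ∈ {z | |(e z).re| < a ∧ (e z).im < (3 * L + 3) * a} := by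
      simp only [mem_ofPred_eq, map_zero, zero_re, abs_zero, zero_im]
      exact ⟨a0, by positivity⟩
    filter_upwards [hW self_mem_nhdsWithin, hW (nhdsWithin_le_nhds (Bo.mem_nhds h0))] with z h1 h2
    exact ⟨h2.1, h1, h2.2⟩
  have Wb : ∀ᶠ z in (W : Filter ℂ), ψ z ∈ ball (0 : ℂ) 1 := WU.mono fun z hz => ψm hz
  obtain ⟨v, hv, hv'⟩ := (isCompact_closedBall (0 : ℂ) 1).ultrafilter_le_nhds (W.map ψ)
    (le_principal_iff.2 (Wb.mono fun z hz => ball_subset_closedBall hz))
  have t1 : Tendsto ψ W (𝓝[ball 0 1] v) := tendsto_nhdsWithin_iff.2 ⟨hv', Wb⟩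
  have t2 : Tendsto (Φ ∘ ψ) W (𝓝 (Φ v)) :=
    Tendsto.comp ((Φc v hv).mono ball_subset_closedBall) t1
  have t3 : Tendsto (Φ ∘ ψ) W (𝓝 0) := by
    refine (tendsto_id.mono_left (hW.trans nhdsWithin_le_nhds)).congr' ?_
    filter_upwards [WU] with z hz
    exact (Φψ z hz).symm
  have v0 := tendsto_nhds_unique t2 t3
  refine ((loc v (circ v hv v0) v0).2.comp t1).congr' ?_
  filter_upwards [WU] with z hz
  simp only [Function.comp, Φψ z hz]

end Pool.Agent.H257Z.SK
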