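import Pool.Agent.H257Z.SK.Refl

set_option autoImplicit false
open Complex Set Filter Metric Topology
open scoped ComplexConjugate

namespace Pool.Agent.H257Z.SK

/-- branch of the logarithm on the closed upper half plane -/
noncomputable def lg (w : ℂ) : ℂ := log (-I * w)

theorem slit {w : ℂ} (h : 0 ≤ w.im) (h0 : w ≠ 0) : -I * w ∈ slitPlane := by
  rw [mem_slitPlane_iff]
  rcases h.lt_or_eq with h | h
  · left; simpa using h
  · right
    intro hi
    apply h0
    apply Complex.ext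
    · simpa using hi
    · simpa using h.symm

theorem lg_re (w : ℂ) : (lg w).re = Real.log ‖w‖ := by simp [lg, log_re]

theorem lg_im_abs (w : ℂ) : |(lg w).im| ≤ Real.pi := by
  rw [lg, log_im]; exact abs_arg_le_pi _

theorem lg_im_pos {t : ℝ} (h : 0 < t) : (lg t).im = -(Real.pi / 2) := by
  rw [lg, log_im, arg_eq_neg_pi_div_two_iff]
  simpa using h

theorem lg_im_neg {t : ℝ} (h : t < 0) : (lg t).im = Real.pi / 2 := by
  rw [lg, log_im, arg_eq_pi_div_two_iff]
  simpa using h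

theorem hasDerivAt_lg {w : ℂ} (h : 0 ≤ w.im) (h0 : w ≠ 0) : HasDerivAt lg w⁻¹ w := by
  have := ((hasDerivAt_id w).const_mul (-I)).clog (slit h h0)
  refine this.congr_deriv ?_
  simp only [id]
  field_simp

theorem tendsto_mul_lg : Tendsto (fun w => w * lg w) (𝓝 0) (𝓝 0) := by
  have h1 : Tendsto (fun w : ℂ => |‖w‖ * Real.log ‖w‖| + ‖w‖ * Real.pi) (𝓝 0)
      (𝓝 (|‖(0 : ℂ)‖ * Real.log ‖(0 : ℂ)‖| + ‖(0 : ℂ)‖ * Real.pi)) :=
    (((Real.continuous_mul_log.comp continuous_norm).abs).add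
      (continuous_norm.mul continuous_const)).continuousAt
  simp only [norm_zero, zero_mul, abs_zero, add_zero] at h1
  refine squeeze_zero_norm (fun w => ?_) h1
  rw [norm_mul, abs_mul, abs_norm, ← mul_add]
  refine mul_le_mul_of_nonneg_left ?_ (norm_nonneg _)
  refine (norm_le_abs_re_add_abs_im _).trans ?_
  rw [lg_re]
  exact add_le_add le_rfl (lg_im_abs w)

theorem continuousAt_mul_lg {w : ℂ} (h : 0 ≤ w.im) : ContinuousAt (fun w => w * lg w) w := by
  by_cases h0 : w = 0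
  · subst h0
    simpa [ContinuousAt] using tendsto_mul_lg
  · exact continuousAt_id.mul (hasDerivAt_lg h h0).continuousAt

theorem tendsto_real : Tendsto (fun t : ℝ => (t : ℂ)) (𝓝 0) (𝓝 0) := by
  simpa using continuous_ofReal.tendsto 0

/-- analytic square root of an analytic function nonnegative on the real axis -/
theorem sqrt_ana {F : ℂ → ℂ} (hF : AnalyticAt ℂ F 0)
    (hr : ∀ᶠ t : ℝ in 𝓝 0, (F t).im = 0 ∧ 0 ≤ (F t).re) :
    ∃ G : ℂ → ℂ, AnalyticAt ℂ G 0 ∧ ∀ᶠ w in 𝓝 0, G w ^ 2 = F w := by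
  by_cases hz : ∀ᶠ w in 𝓝 (0 : ℂ), F w = 0
  · refine ⟨fun _ => 0, analyticAt_const, ?_⟩
    filter_upwards [hz] with w hw
    simp [hw]
  obtain ⟨m, F₁, a1, n1, e1⟩ := hF.exists_eventuallyEq_pow_smul_nonzero_iff.2 hz
  simp only [sub_zero, smul_eq_mul] at e1
  have tr : Tendsto (fun t : ℝ => F₁ t) (𝓝 0) (𝓝 (F₁ 0)) := a1.continuousAt.tendsto.comp tendsto_real
  have e2 : ∀ᶠ t : ℝ in 𝓝 0, t ^ m * (F₁ t).im = 0 ∧ 0 ≤ t ^ m * (F₁ t).re := by
    filter_upwards [hr, tendsto_real.eventually e1] with t h1 h2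
    rw [h2, ← ofReal_pow, im_ofReal_mul, re_ofReal_mul] at h1
    exact h1
  rcases Nat.even_or_odd m with ⟨k, hk⟩ | hm
  · obtain ⟨c, hc⟩ : ∃ c : ℂ, c ^ 2 = F₁ 0 := ⟨F₁ 0 ^ ((2 : ℕ) : ℂ)⁻¹, cpow_nat_inv_pow _ two_ne_zero⟩
    refine ⟨fun w => w ^ k * c * exp (log (F₁ w / F₁ 0) / 2), ?_, ?_⟩
    · refine ((analyticAt_id.pow k).mul analyticAt_const).mul (AnalyticAt.cexp' ?_)
      refine AnalyticAt.div_const (AnalyticAt.clog a1.div_const ?_)
      rw [div_self n1]; exact one_mem_slitPlane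
    · filter_upwards [e1, a1.continuousAt.eventually_ne n1] with w h1 h2
      rw [mul_pow, mul_pow, ← exp_nat_mul, hc, h1, hk]
      rw [show ((2 : ℕ) : ℂ) * (log (F₁ w / F₁ 0) / 2) = log (F₁ w / F₁ 0) by push_cast; ring,
        exp_log (div_ne_zero h2 n1)]
      field_simp
      ring
  · exfalso
    apply n1
    have p1 : 0 ≤ (F₁ 0).re := by
      refine ge_of_tendsto ((continuous_re.tendsto _).comp (tr.mono_left
        (nhdsWithin_le_nhds (s := Ioi 0)))) ?_
      filter_upwards [e2.filter_mono nhdsWithin_le_nhds, self_mem_nhdsWithin] with t h1 h2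
      exact nonneg_of_mul_nonneg_right h1.2 (pow_pos h2 m)
    have p2 : (F₁ 0).re ≤ 0 := by
      refine le_of_tendsto ((continuous_re.tendsto _).comp (tr.mono_left
        (nhdsWithin_le_nhds (s := Iio 0)))) ?_
      filter_upwards [e2.filter_mono nhdsWithin_le_nhds, self_mem_nhdsWithin] with t h1 h2
      exact nonpos_of_mul_nonneg_right h1.2 (hm.pow_neg h2)
    have p3 : (F₁ 0).im = 0 := by
      refine tendsto_nhds_unique ((continuous_im.tendsto _).comp (tr.mono_left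
        (nhdsWithin_le_nhds (s := Ioi 0)))) (tendsto_const_nhds.congr' ?_)
      filter_upwards [e2.filter_mono nhdsWithin_le_nhds, self_mem_nhdsWithin] with t h1 h2
      exact ((mul_eq_zero.1 h1.1).resolve_left (pow_pos h2 m).ne').symm
    exact Complex.ext (le_antisymm p2 p1) p3

theorem sign_const {S : Set ℝ} (hS : IsPreconnected S) {f g : ℝ → ℝ} (hf : ContinuousOn f S)
    (hg : ContinuousOn g S) (hsq : ∀ t ∈ S, f t ^ 2 = g t ^ 2)
    (hz : (∀ t ∈ S, g t = 0) ∨ ∀ t ∈ S, g t ≠ 0) : ∃ ε : ℝ, ∀ t ∈ S, f t = ε * g t := by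
  rcases hz with hz | hz
  · refine ⟨0, fun t ht => ?_⟩
    have := hsq t ht
    rw [hz t ht] at this
    simpa using this
  · rcases hS.eq_or_eq_neg_of_sq_eq hf hg (fun t ht => hsq t ht) (fun {t} ht => hz t ht) with h | h
    · exact ⟨1, fun t ht => by simpa using h ht⟩
    · exact ⟨-1, fun t ht => by simpa using h ht⟩

/-- local structure of the conformal map at the boundary point -/
theorem struct {δ : ℝ} (hδ : 0 < δ) {φ F : ℂ → ℂ} (φc : ContinuousOn φ (HC δ))
    (φd : DifferentiableOn ℂ φ (HO δ)) (φ0 : φ 0 = 0) (φne : ∀ w ∈ HO δ, φ w ≠ 0)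
    (Fc : ContinuousOn F (HC δ)) (Fd : DifferentiableOn ℂ F (HO δ))
    (hF : ∀ t : ℝ, |t| < δ → F t = (((φ t).re ^ 2 : ℝ) : ℂ)) :
    ∃ (η : ℝ) (j : ℕ) (P Q G : ℂ → ℂ), 0 < η ∧ η ≤ δ ∧ 1 ≤ j ∧
      AnalyticOnNhd ℂ P (ball 0 η) ∧ AnalyticOnNhd ℂ Q (ball 0 η) ∧ AnalyticAt ℂ G 0 ∧ G 0 = 0 ∧
      (P 0 ≠ 0 ∨ Q 0 ≠ 0) ∧ (∀ w ∈ HC η, φ w = w ^ j * (P w + Q w * lg w)) ∧
      ∀ w ∈ HC η, F w = G w ^ 2 := by
  obtain ⟨F', F'd, F'e⟩ := reflect Fc Fd (fun t ht => by rw [hF t ht, ofReal_im])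
  have hδe : ∀ᶠ t : ℝ in 𝓝 0, |t| < δ := by
    filter_upwards [ball_mem_nhds (0 : ℝ) hδ] with t ht
    simpa using ht
  obtain ⟨G, Ga, Ge⟩ := sqrt_ana (F'd.analyticAt (ball_mem_nhds _ hδ)) (by
    filter_upwards [hδe] with t ht
    rw [F'e (real_mem_HC ht), hF t ht, ofReal_im, ofReal_re]
    exact ⟨rfl, sq_nonneg _⟩)
  have h0δ : (0 : ℂ) ∈ HC δ := ⟨mem_ball_self hδ, le_refl (0 : ℝ)⟩
  have G0 : G 0 = 0 := by
    have h1 := Ge.self_of_nhds
    have h2 := hF 0 (by simpa using hδ)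
    rw [ofReal_zero, φ0] at h2
    rw [F'e h0δ, h2] at h1
    simpa using h1
  obtain ⟨η₁, η₁0, η₁δ, Gb, Gsq, Gz⟩ : ∃ η₁, 0 < η₁ ∧ η₁ ≤ δ ∧ AnalyticOnNhd ℂ G (ball 0 η₁) ∧
      (∀ w ∈ ball (0 : ℂ) η₁, G w ^ 2 = F' w) ∧
      ((∀ w ∈ ball (0 : ℂ) η₁, G w = 0) ∨ ∀ w ∈ ball (0 : ℂ) η₁, w ≠ 0 → G w ≠ 0) := by
    rcases Ga.eventually_eq_zero_or_eventually_ne_zero with h | h
    · obtain ⟨r, r0, hr⟩ := Metric.mem_nhds_iff.1 ((Ga.eventually_analyticAt.and Ge).and h)
      have hs : ball (0 : ℂ) (min r δ) ⊆ ball 0 r := ball_subset_ball (min_le_left _ _)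
      exact ⟨min r δ, lt_min r0 hδ, min_le_right _ _, fun w hw => (hr (hs hw)).1.1,
        fun w hw => (hr (hs hw)).1.2, Or.inl fun w hw => (hr (hs hw)).2⟩
    · rw [eventually_nhdsWithin_iff] at h
      obtain ⟨r, r0, hr⟩ := Metric.mem_nhds_iff.1 ((Ga.eventually_analyticAt.and Ge).and h)
      have hs : ball (0 : ℂ) (min r δ) ⊆ ball 0 r := ball_subset_ball (min_le_left _ _)
      exact ⟨min r δ, lt_min r0 hδ, min_le_right _ _, fun w hw => (hr (hs hw)).1.1,
        fun w hw => (hr (hs hw)).1.2, Or.inr fun w hw => (hr (hs hw)).2⟩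
  have hb : ∀ t : ℝ, |t| < η₁ → (t : ℂ) ∈ ball (0 : ℂ) η₁ := fun t ht => by simpa using ht
  have Greal : ∀ t : ℝ, |t| < η₁ → (G t).im = 0 ∧ (φ t).re ^ 2 = (G t).re ^ 2 := by
    intro t ht
    have ht' : |t| < δ := lt_of_lt_of_le ht η₁δ
    have h1 := Gsq _ (hb t ht)
    rw [F'e (real_mem_HC ht'), hF t ht', ofReal_pow, sq_eq_sq_iff_eq_or_eq_neg] at h1
    rcases h1 with h1 | h1 <;> rw [h1] <;> simp
  have sg : ∀ S : Set ℝ, IsPreconnected S → (∀ t ∈ S, |t| < η₁ ∧ t ≠ 0) →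
      ∃ ε : ℝ, ∀ t ∈ S, (φ t).re = ε * (G t).re := by
    intro S hS hS'
    refine sign_const hS ?_ ?_ (fun t ht => (Greal t (hS' t ht).1).2) ?_
    · exact continuous_re.comp_continuousOn (φc.comp continuous_ofReal.continuousOn
        fun t ht => real_mem_HC (lt_of_lt_of_le (hS' t ht).1 η₁δ))
    · exact continuous_re.comp_continuousOn (Gb.continuousOn.comp continuous_ofReal.continuousOn
        fun t ht => hb t (hS' t ht).1)
    · rcases Gz with h | h
      · exact Or.inl fun t ht => by rw [h _ (hb t (hS' t ht).1), zero_re]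
      · refine Or.inr fun t ht e => h _ (hb t (hS' t ht).1) (by exact_mod_cast (hS' t ht).2) ?_
        exact Complex.ext e (Greal t (hS' t ht).1).1
  obtain ⟨ε₁, h₁⟩ := sg (Ioo 0 η₁) isPreconnected_Ioo
    fun t ht => ⟨by rw [abs_of_pos ht.1]; exact ht.2, ht.1.ne'⟩
  obtain ⟨ε₂, h₂⟩ := sg (Ioo (-η₁) 0) isPreconnected_Ioo
    fun t ht => ⟨by rw [abs_of_neg ht.2]; linarith [ht.1], ht.2.ne⟩
  set a : ℝ := (ε₁ + ε₂) / 2 with ha
  set b : ℝ := (ε₁ - ε₂) / Real.pi with hb'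
  have Gd : DifferentiableOn ℂ G (ball 0 η₁) := Gb.differentiableOn
  have G1d : DifferentiableOn ℂ (dslope G 0) (ball 0 η₁) :=
    (differentiableOn_dslope (ball_mem_nhds _ η₁0)).2 Gd
  have hG1 : ∀ w, w * dslope G 0 w = G w := by
    intro w
    have := sub_smul_dslope G 0 w
    simpa [G0] using this
  obtain ⟨A, Ad, Ae⟩ := reflect (δ := η₁)
    (f := fun w => I * (φ w - (a * G w + I * b * dslope G 0 w * (w * lg w)))) (by
      refine continuousOn_const.mul ((φc.mono (HC_mono η₁δ)).sub (ContinuousOn.add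
        (continuousOn_const.mul (Gd.continuousOn.mono inter_subset_left)) (ContinuousOn.mul
        (continuousOn_const.mul (G1d.continuousOn.mono inter_subset_left)) ?_)))
      exact fun w hw => (continuousAt_mul_lg hw.2).continuousWithinAt) (by
      refine DifferentiableOn.const_mul ((φd.mono (HO_mono η₁δ)).sub (DifferentiableOn.add
        ((Gd.mono inter_subset_left).const_mul _) (DifferentiableOn.mul
        ((G1d.mono inter_subset_left).const_mul _) ?_))) _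
      intro w hw
      have h1 : 0 < w.im := hw.2
      have h2 : w ≠ 0 := by rintro rfl; simp at h1
      exact (differentiableAt_id.mul
        (hasDerivAt_lg h1.le h2).differentiableAt).differentiableWithinAt) (by
      intro t ht
      have e : I * (b : ℂ) * dslope G 0 t * (t * lg t) = I * b * G t * lg t := by
        rw [← hG1]; ring
      have g1 := (Greal t ht).1
      have hpi := Real.pi_pos.ne'
      simp only [e, mul_im, I_re, I_im, zero_mul, one_mul, zero_add, sub_re, add_re, mul_re,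
        ofReal_re, ofReal_im, g1, mul_zero, sub_zero, zero_sub]
      rcases lt_trichotomy t 0 with h | h | h
      · rw [lg_im_neg h, h₂ t ⟨by linarith [(abs_lt.1 ht).1], h⟩, ha, hb']
        field_simp
        ring
      · subst h
        simp [φ0, G0]
      · rw [lg_im_pos h, h₁ t ⟨h, (abs_lt.1 ht).2⟩, ha, hb']
        field_simp
        ring)
  have hφ : ∀ w ∈ HC η₁, φ w = (a * G w - I * A w) + (I * b * G w) * lg w := by
    intro w hw
    rw [Ae hw]
    simp only []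
    rw [← hG1 w]
    linear_combination (φ w - (a * (w * dslope G 0 w) + I * b * dslope G 0 w * (w * lg w))) * I_mul_I
  have Aa : AnalyticAt ℂ A 0 := Ad.analyticAt (ball_mem_nhds _ η₁0)
  have Va : AnalyticAt ℂ (fun w => ((a * G w - I * A w, I * b * G w) : ℂ × ℂ)) 0 :=
    ((analyticAt_const.mul Ga).sub (analyticAt_const.mul Aa)).prod (analyticAt_const.mul Ga)
  have h0η : (0 : ℂ) ∈ HC η₁ := ⟨mem_ball_self η₁0, le_refl (0 : ℝ)⟩
  have Vn : ¬ ∀ᶠ w in 𝓝 (0 : ℂ), ((a * G w - I * A w, I * b * G w) : ℂ × ℂ) = 0 := by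
    intro h
    obtain ⟨r, r0, hr⟩ := Metric.mem_nhds_iff.1 h
    have m0 : 0 < min r η₁ := lt_min r0 η₁0
    have hw : ((min r η₁ / 2 : ℝ) : ℂ) * I ∈ HO (min r η₁) := by
      refine ⟨?_, ?_⟩
      · rw [mem_ball_zero_iff, norm_mul, norm_I, Complex.norm_real,
          Real.norm_of_nonneg (by positivity)]
        linarith
      · show 0 < (((min r η₁ / 2 : ℝ) : ℂ) * I).im
        rw [im_ofReal_mul, I_im]
        linarith
    have h1 := hr (ball_subset_ball (min_le_left _ _) hw.1)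
    rw [mem_ofPred_eq, Prod.mk_eq_zero] at h1
    apply φne _ (HO_mono ((min_le_right _ _).trans η₁δ) hw)
    rw [hφ _ (HO_sub _ (HO_mono (min_le_right _ _) hw)), h1.1, h1.2]
    simp
  obtain ⟨j, W, Wa, Wn, We⟩ := Va.exists_eventuallyEq_pow_smul_nonzero_iff.2 Vn
  have j1 : 1 ≤ j := by
    rcases Nat.eq_zero_or_pos j with h | h
    · exfalso
      have h1 := We.self_of_nhds
      have h2 := hφ 0 h0η
      rw [φ0, G0] at h2
      rw [h, pow_zero, one_smul, G0] at h1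
      apply Wn
      rw [← h1, Prod.mk_eq_zero]
      exact ⟨by simpa using h2.symm, by simp⟩
    · exact h
  obtain ⟨r, r0, hr⟩ := Metric.mem_nhds_iff.1 (Wa.eventually_analyticAt.and We)
  have hs : ball (0 : ℂ) (min r η₁) ⊆ ball 0 r := ball_subset_ball (min_le_left _ _)
  refine ⟨min r η₁, j, fun w => (W w).1, fun w => (W w).2, G, lt_min r0 η₁0,
    (min_le_right _ _).trans η₁δ, j1, fun w hw => analyticAt_fst.comp (hr (hs hw)).1,
    fun w hw => analyticAt_snd.comp (hr (hs hw)).1, Ga, G0, ?_, fun w hw => ?_, fun w hw => ?_⟩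
  · by_contra h
    push Not at h
    exact Wn (Prod.ext h.1 h.2)
  · have h1 := (hr (hs hw.1)).2
    rw [hφ w (HC_mono (min_le_right _ _) hw)]
    have h2 := congrArg Prod.fst h1
    have h3 := congrArg Prod.snd h1
    simp only [sub_zero, Prod.smul_fst, Prod.smul_snd, smul_eq_mul] at h2 h3
    rw [h2, h3]; ring
  · have hw' := HC_mono (min_le_right _ _) hw
    rw [Gsq w hw'.1, F'e (HC_mono η₁δ hw')]

end Pool.Agent.H257Z.SK
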