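import Pool.Agent.H257Z.SK.Glob
import Pool.Agent.Helper546.Weyl

set_option autoImplicit false
open Complex Set Filter Metric Topology MeasureTheory
open scoped ComplexConjugate ContDiff
open Pool.Agent.Helper546

namespace Pool.Agent.H257Z.SK

/-- identification of the complex plane with the Euclidean plane -/
noncomputable def cV : ℂ ≃ₗᵢ[ℝ] V := Complex.orthonormalBasisOneI.repr

theorem cV0 (z : ℂ) : cV z 0 = z.re := rfl
theorem cV1 (z : ℂ) : cV z 1 = z.im := rfl

theorem cV_one : cV 1 = ee 0 := by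
  ext i; fin_cases i <;> simp [ee, cV0, cV1]

theorem cV_I : cV I = ee 1 := by
  ext i; fin_cases i <;> simp [ee, cV0, cV1]

theorem cV_eq (z : ℂ) : cV z = z.re • ee 0 + z.im • ee 1 := by
  conv_lhs => rw [← re_add_im z]
  rw [map_add, ← cV_one, ← cV_I, ← map_smul, ← map_smul]
  simp

/-- the cubic particular solution -/
noncomputable def cub (x : V) : ℝ := x 0 ^ 3 / 6

theorem hasF_pow (n : ℕ) (c : ℝ) (x : V) : HasFDerivAt (fun y : V => y 0 ^ (n + 1) / c)
    ((((n + 1 : ℕ) : ℝ) * x 0 ^ n / c) • (EuclideanSpace.proj (0 : Fin 2) : V →L[ℝ] ℝ)) x := by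
  have h1 : HasDerivAt (fun s : ℝ => s ^ (n + 1) / c) (((n + 1 : ℕ) : ℝ) * x 0 ^ n / c) (x 0) := by
    simpa using (hasDerivAt_pow (n + 1) (x 0)).div_const c
  exact h1.comp_hasFDerivAt x (EuclideanSpace.proj (0 : Fin 2) : V →L[ℝ] ℝ).hasFDerivAt

theorem dd0_cub : dd 0 cub = fun x => x 0 ^ 2 / 2 := by
  funext x
  rw [dd, show cub = fun y : V => y 0 ^ (2 + 1) / 6 from rfl, (hasF_pow 2 6 x).fderiv]
  simp [ee]; ring

theorem dd1_cub : dd 1 cub = fun _ => 0 := by
  funext x
  rw [dd, show cub = fun y : V => y 0 ^ (2 + 1) / 6 from rfl, (hasF_pow 2 6 x).fderiv]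
  simp [ee]

theorem lap_cub (x : V) : lap cub x = x 0 := by
  rw [lap, dd0_cub, dd1_cub, dd, dd, show (fun x : V => x 0 ^ 2 / 2) =
    fun y : V => y 0 ^ (1 + 1) / 2 from rfl, (hasF_pow 1 2 x).fderiv]
  simp [ee]

theorem contDiff_cub : ContDiff ℝ ∞ cub :=
  ((EuclideanSpace.proj (0 : Fin 2) : V →L[ℝ] ℝ).contDiff.pow 3).div_const 6

theorem holo_harm {v : V → ℝ} {Ω : Set V} (hΩ : IsOpen Ω) (hv : ContDiffOn ℝ ∞ v Ω)
    (hl : Helm 0 v Ω) {z : ℂ} (hz : cV z ∈ Ω) :
    DifferentiableAt ℂ (fun w => (dd 0 v (cV w) : ℂ) - I * dd 1 v (cV w)) z := by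
  have hd : ∀ i, HasFDerivAt (fun w => (dd i v (cV w) : ℂ))
      (ofRealCLM.comp ((fderiv ℝ (dd i v) (cV z)).comp
        cV.toContinuousLinearEquiv.toContinuousLinearMap)) z := by
    intro i
    have h1 := (((contDiffOn_dd hΩ i hv).contDiffAt (hΩ.mem_nhds hz)).differentiableAt
      (by simp)).hasFDerivAt
    exact ofRealCLM.hasFDerivAt.comp z (h1.comp z cV.toContinuousLinearEquiv.hasFDerivAt)
  have h := (hd 0).sub ((hd 1).const_mul I)
  refine differentiableAt_complex_iff_differentiableAt_real.2 ⟨h.differentiableAt, ?_⟩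
  rw [show (fun w => (dd 0 v (cV w) : ℂ) - I * dd 1 v (cV w)) =
    (fun w => (dd 0 v (cV w) : ℂ)) - fun w => I * dd 1 v (cV w) from rfl, h.fderiv]
  have hv2 : ContDiffAt ℝ 2 v (cV z) := (hv.contDiffAt (hΩ.mem_nhds hz)).of_le (by norm_cast)
  have h1 : DifferentiableAt ℝ (fderiv ℝ v) (cV z) :=
    (hv2.fderiv_right (m := 1) (by norm_num)).differentiableAt (by norm_num)
  have h2 : ∀ i j, fderiv ℝ (dd i v) (cV z) (ee j) = fderiv ℝ (fderiv ℝ v) (cV z) (ee j) (ee i) := by
    intro i j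
    rw [show dd i v = fun y => fderiv ℝ v y (ee i) from rfl, fderiv_clm_apply h1 (by fun_prop)]
    simp
  have h3 : fderiv ℝ (dd 0 v) (cV z) (ee 1) = fderiv ℝ (dd 1 v) (cV z) (ee 0) := by
    rw [h2, h2]; exact (hv2.isSymmSndFDerivAt (by simp)).eq _ _
  have h4 : fderiv ℝ (dd 0 v) (cV z) (ee 0) + fderiv ℝ (dd 1 v) (cV z) (ee 1) = 0 := by
    have := hl _ hz
    simpa [lap, dd] using this
  have c1 : cV.toContinuousLinearEquiv.toContinuousLinearMap 1 = ee 0 := cV_one
  have c2 : cV.toContinuousLinearEquiv.toContinuousLinearMap I = ee 1 := cV_I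
  simp only [sub_apply, smul_apply,
    ContinuousLinearMap.comp_apply, c1, c2, ofRealCLM_apply, smul_eq_mul, h3]
  rw [eq_neg_of_add_eq_zero_left h4]
  push_cast
  linear_combination (fderiv ℝ (dd 1 v) (cV z) (ee 0) : ℂ) * I_mul_I

/-- the holomorphic function built from the solution -/
noncomputable def ff (u : V → ℝ) (z : ℂ) : ℂ :=
  ((z.re ^ 2 : ℝ) : ℂ) - 2 * ((dd 0 u (cV z) : ℂ) - I * dd 1 u (cV z))

theorem ff_holo {W : Set V} (hW : IsOpen W) {u : V → ℝ} (hu : ContinuousOn u W)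
    (hw : ∀ ψ, Tst W ψ → ∫ x, u x * lap ψ x = ∫ x, x 0 * ψ x) {z : ℂ} (hz : cV z ∈ W) :
    DifferentiableAt ℂ (ff u) z := by
  obtain ⟨r, r0, hr⟩ := nhds_basis_closedBall.mem_iff.1 (hW.mem_nhds hz)
  have hc : ContinuousOn (fun x => u x - cub x) (closedBall (cV z) r) :=
    (hu.mono hr).sub contDiff_cub.continuous.continuousOn
  have hm : MemLp ((closedBall (cV z) r).indicator fun x => u x - cub x) 2 := by
    rw [memLp_indicator_iff_restrict measurableSet_closedBall]
    obtain ⟨C, hC⟩ := (isCompact_closedBall (cV z) r).exists_bound_of_continuousOn hc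
    have : IsFiniteMeasure ((volume : Measure V).restrict (closedBall (cV z) r)) :=
      isFiniteMeasure_restrict.2 measure_closedBall_lt_top.ne
    exact MemLp.of_bound (hc.aestronglyMeasurable measurableSet_closedBall) C
      ((ae_restrict_iff' measurableSet_closedBall).2 (Eventually.of_forall hC))
  have hbW : ball (cV z) r ⊆ W := ball_subset_closedBall.trans hr
  obtain ⟨v, vs, ve, vh, -⟩ := weyl (Ω := ball (cV z) r) isOpen_ball (Λ := 0) le_rfl hm (by
    intro ψ hψ
    have hl : Tst (ball (cV z) r) (lap ψ) := ((hψ.dd 0).dd 0).add ((hψ.dd 1).dd 1)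
    have e : (fun x => (closedBall (cV z) r).indicator (fun x => u x - cub x) x *
        (lap ψ x + 0 * ψ x)) = fun x => u x * lap ψ x - cub x * lap ψ x := by
      funext x
      by_cases hx : x ∈ closedBall (cV z) r
      · rw [indicator_of_mem hx]; ring
      · have : lap ψ x = 0 := image_eq_zero_of_notMem_tsupport
          fun h => hx (ball_subset_closedBall (hl.2.2 h))
        rw [this]; simp
    rw [e, integral_sub
      (integrable_mul_of_tsupport isOpen_ball (hu.mono hbW) hl.1.continuous hl.2.2 hl.2.1)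
      (integrable_mul_of_tsupport isOpen_ball contDiff_cub.continuous.continuousOn
        hl.1.continuous hl.2.2 hl.2.1), hw ψ (hψ.mono hbW),
      ibp_lap isOpen_ball contDiff_cub.contDiffOn hψ]
    simp only [lap_cub, sub_self])
  have ve' : EqOn v (fun x => u x - cub x) (ball (cV z) r) := by
    refine Measure.eqOn_open_of_ae_eq (μ := volume) ?_ isOpen_ball vs.continuousOn
      (hc.mono ball_subset_closedBall)
    refine (ae_restrict_iff' measurableSet_ball).2 ?_
    filter_upwards [ve] with x hx hx'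
    rw [hx hx', indicator_of_mem (ball_subset_closedBall hx')]
  have hdd : ∀ i, ∀ x ∈ ball (cV z) r, dd i u x = dd i v x + dd i cub x := by
    intro i x hx
    have h1 : u =ᶠ[𝓝 x] v + cub := by
      filter_upwards [isOpen_ball.mem_nhds hx] with y hy
      simp [ve' hy]
    rw [dd, h1.fderiv_eq, fderiv_add ((vs.contDiffAt (isOpen_ball.mem_nhds hx)).differentiableAt
      (by simp)) (contDiff_cub.differentiable (by simp) x)]
    rfl
  refine ((holo_harm isOpen_ball vs vh (mem_ball_self r0)).const_mul (-2)).congr_of_eventuallyEq ?_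
  filter_upwards [cV.continuous.continuousAt.preimage_mem_nhds (ball_mem_nhds (cV z) r0)]
    with w hw'
  rw [ff, hdd 0 _ hw', hdd 1 _ hw', dd0_cub, dd1_cub]
  simp only [cV0]
  push_cast
  ring

theorem graph_zero {D : Set V} (hD : IsOpen D) (h0 : (0 : V) ∈ frontier D) {ρ : ℝ} (ρ0 : 0 < ρ)
    (R : V ≃ₗᵢ[ℝ] V) {g : ℝ → ℝ} (hg : Continuous g)
    (hgr : ∀ x ∈ ball (0 : V) ρ, (x ∈ D ↔ g (R x 0) < R x 1)) : g 0 = 0 := by
  rw [hD.frontier_eq] at h0
  have h1 : ¬ g 0 < 0 := fun h => h0.2 ((hgr 0 (mem_ball_self ρ0)).2 (by simpa using h))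
  refine le_antisymm ?_ (not_lt.1 h1)
  have cR : Continuous R := R.continuous
  have hs : (0 : V) ∈ closure (ball 0 ρ ∩ D) :=
    isOpen_ball.inter_closure ⟨mem_ball_self ρ0, h0.1⟩
  have := closure_minimal (t := {x : V | g (R x 0) ≤ R x 1})
    (fun x hx => le_of_lt ((hgr x hx.1).1 hx.2)) (isClosed_le (by fun_prop) (by fun_prop)) hs
  simpa using this

theorem pde {D : Set V} (hD : IsOpen D) (h0 : (0 : V) ∈ frontier D) {ρ : ℝ} (ρ0 : 0 < ρ)
    (R : V ≃ₗᵢ[ℝ] V) {g : ℝ → ℝ} {L : NNReal} (hg : LipschitzWith L g)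
    (hgr : ∀ x ∈ ball (0 : V) ρ, (x ∈ D ↔ g (R x 0) < R x 1)) {u : V → ℝ}
    (ud : DifferentiableOn ℝ u (ball 0 ρ)) (uc : ContinuousOn (fderiv ℝ u) (ball 0 ρ))
    (hw : ∀ ψ, Tst (ball 0 ρ ∩ D) ψ → ∫ x, u x * lap ψ x = ∫ x, x 0 * ψ x)
    (hz : ∀ x ∈ ball (0 : V) ρ, x ∉ closure D → u x = 0) :
    (∃ r, 0 < r ∧ ContDiffOn ℝ 1 g (Ioo (-r) r)) ∧
      ∀ x : V, R x 1 ≠ deriv g 0 * R x 0 →
        ∃ l, Tendsto (fun t : ℝ => u (t • x) / t ^ 3) (𝓝[>] 0) (𝓝 l) := by
  have cg := hg.continuous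
  have cR : Continuous R := R.continuous
  have g0 := graph_zero hD h0 ρ0 R cg hgr
  set e : ℂ ≃ₗᵢ[ℝ] ℂ := (cV.trans R).trans cV.symm with he
  have er : ∀ z, (e z).re = R (cV z) 0 := fun z => by
    rw [← cV0]; simp [he]
  have ei : ∀ z, (e z).im = R (cV z) 1 := fun z => by
    rw [← cV1]; simp [he]
  have hb : ∀ z ∈ ball (0 : ℂ) ρ, cV z ∈ ball (0 : V) ρ := fun z hz => by simpa using hz
  have Bo : IsOpen (ball (0 : V) ρ ∩ {x | R x 1 < g (R x 0)}) :=
    isOpen_ball.inter (isOpen_lt (by fun_prop) (by fun_prop))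
  have Bz : ∀ x ∈ ball (0 : V) ρ ∩ {x | R x 1 < g (R x 0)}, u x = 0 := by
    intro x hx
    refine hz x hx.1 fun h => ?_
    obtain ⟨y, hy1, hy2⟩ := mem_closure_iff.1 h _ Bo hx
    exact lt_asymm ((hgr y hy1.1).1 hy2) hy1.2
  have Bz' : ∀ x ∈ ball (0 : V) ρ ∩ {x | R x 1 < g (R x 0)}, fderiv ℝ u x = 0 := by
    intro x hx
    have : u =ᶠ[𝓝 x] fun _ => 0 := by
      filter_upwards [Bo.mem_nhds hx] with y hy using Bz y hy
    rw [this.fderiv_eq]; simp
  have onΓ : ∀ x ∈ ball (0 : V) ρ, R x 1 = g (R x 0) → u x = 0 ∧ fderiv ℝ u x = 0 := by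
    intro x hx hx'
    have t1 : Tendsto (fun s : ℝ => x - s • R.symm (ee 1)) (𝓝[>] 0) (𝓝 x) := by
      have : Continuous fun s : ℝ => x - s • R.symm (ee 1) := by fun_prop
      simpa using (this.tendsto 0).mono_left (nhdsWithin_le_nhds (s := Ioi 0))
    have ev : ∀ᶠ s : ℝ in 𝓝[>] 0,
        x - s • R.symm (ee 1) ∈ ball (0 : V) ρ ∩ {x | R x 1 < g (R x 0)} := by
      filter_upwards [t1.eventually (isOpen_ball.mem_nhds hx), self_mem_nhdsWithin] with s h1 h2
      refine ⟨h1, ?_⟩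
      have : 0 < s := h2
      simp [ee, hx', this]
    constructor
    · refine tendsto_nhds_unique ((ud.continuousOn.continuousAt
        (isOpen_ball.mem_nhds hx)).tendsto.comp t1) (tendsto_const_nhds.congr' ?_)
      filter_upwards [ev] with s hs using (Bz _ hs).symm
    · refine tendsto_nhds_unique ((uc.continuousAt
        (isOpen_ball.mem_nhds hx)).tendsto.comp t1) (tendsto_const_nhds.congr' ?_)
      filter_upwards [ev] with s hs using (Bz' _ hs).symm
  have ddc : ∀ i, ContinuousOn (fun z => (dd i u (cV z) : ℂ)) (ball 0 ρ) := fun i =>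
    continuous_ofReal.comp_continuousOn
      ((uc.clm_apply continuousOn_const).comp cV.continuous.continuousOn hb)
  obtain ⟨c1, c, hc⟩ := glob e hg g0 ρ0 (f := ff u)
    (ContinuousOn.sub (by fun_prop) (continuousOn_const.mul ((ddc 0).sub
      (continuousOn_const.mul (ddc 1)))))
    (fun z hz' => (ff_holo (isOpen_ball.inter hD) (ud.continuousOn.mono inter_subset_left) hw
      ⟨hb z hz'.1, (hgr _ (hb z hz'.1)).2 (by rw [← er, ← ei]; exact hz'.2)⟩).differentiableWithinAt)
    (fun z hz' h => by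
      rw [er, ei] at h
      simp [ff, dd, (onΓ _ (hb z hz') h).2])
  refine ⟨c1, fun x hx => ?_⟩
  obtain ⟨r, r0, hr⟩ := c1
  have gd : HasDerivAt g (deriv g 0) 0 :=
    ((hr.contDiffAt (Ioo_mem_nhds (by linarith) r0)).differentiableAt (by simp)).hasDerivAt
  have tq : Tendsto (fun t : ℝ => t⁻¹ * g (t * R x 0)) (𝓝[>] 0) (𝓝 (deriv g 0 * R x 0)) := by
    have h1 : HasDerivAt g (deriv g 0) (0 * R x 0) := by simpa using gd
    have h2 := HasDerivAt.comp (0 : ℝ) (h₂ := g) (h := fun t : ℝ => t * R x 0) h1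
      ((hasDerivAt_id (0 : ℝ)).mul_const (R x 0))
    have h3 := (hasDerivAt_iff_tendsto_slope_zero.1 h2).mono_left (nhdsGT_le_nhdsNE (0 : ℝ))
    simpa [g0] using h3
  have t0 : Tendsto (fun t : ℝ => t • x) (𝓝[>] 0) (𝓝 0) := by
    have : Continuous fun t : ℝ => t • x := by fun_prop
    simpa using (this.tendsto 0).mono_left (nhdsWithin_le_nhds (s := Ioi 0))
  have evb := t0.eventually (ball_mem_nhds (0 : V) ρ0)
  rcases lt_or_gt_of_ne hx with h | h
  · refine ⟨0, tendsto_const_nhds.congr' ?_⟩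
    filter_upwards [tq.eventually (lt_mem_nhds h), evb, self_mem_nhdsWithin] with t h1 h2 h3
    have h4 : 0 < t := h3
    rw [Bz _ ⟨h2, ?_⟩, zero_div]
    rw [lt_inv_mul_iff₀ h4] at h1
    simpa using h1
  · obtain ⟨z, rfl⟩ := cV.surjective x
    have z0 : z ≠ 0 := by
      rintro rfl
      simp at h
    have tz : Tendsto (fun t : ℝ => (t : ℂ) * z) (𝓝[>] 0) (𝓝[{z | g (e z).re < (e z).im}] 0) := by
      refine tendsto_nhdsWithin_iff.2 ⟨?_, ?_⟩
      · simpa using (tendsto_real.mono_left (nhdsWithin_le_nhds (s := Ioi 0))).mul_const z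
      · filter_upwards [tq.eventually (gt_mem_nhds h), self_mem_nhdsWithin] with t h1 h3
        have h4 : 0 < t := h3
        rw [inv_mul_lt_iff₀ h4] at h1
        rw [er, ei, ← real_smul, map_smul]
        simpa using h1
    have t2 := ((continuous_re.tendsto _).comp ((((hc.comp tz).mul_const (z ^ 2)).const_sub
      (((z.re ^ 2 : ℝ) : ℂ))).mul_const z)).div_const 6
    refine ⟨_, HasDerivAt.lhopital_zero_nhdsGT (f' := fun t => fderiv ℝ u (t • cV z) (cV z))
      (g' := fun t => 3 * t ^ 2) ?_ ?_ ?_ ?_ ?_ (t2.congr' ?_)⟩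
    · filter_upwards [evb] with t ht
      have h1 := (ud.differentiableAt (isOpen_ball.mem_nhds ht)).hasFDerivAt
      have h2 := h1.comp_hasDerivAt t ((hasDerivAt_id t).smul_const (cV z))
      simpa [Function.comp_def] using h2
    · exact Eventually.of_forall fun t => by simpa using hasDerivAt_pow 3 t
    · filter_upwards [self_mem_nhdsWithin] with t ht
      have : 0 < t := ht
      positivity
    · have h1 := (ud.continuousOn.continuousAt (ball_mem_nhds (0 : V) ρ0)).tendsto.comp t0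
      rw [(onΓ 0 (mem_ball_self ρ0) (by simp [g0])).1] at h1
      exact h1
    · have : Continuous fun t : ℝ => t ^ 3 := by fun_prop
      simpa using (this.tendsto 0).mono_left (nhdsWithin_le_nhds (s := Ioi 0))
    · filter_upwards [self_mem_nhdsWithin] with t ht
      have h1 : (t : ℂ) ≠ 0 := by exact_mod_cast (ne_of_gt ht)
      have h1' : t ≠ 0 := ne_of_gt ht
      have h2 : fderiv ℝ u (t • cV z) (cV z) =
          z.re * dd 0 u (t • cV z) + z.im * dd 1 u (t • cV z) := by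
        conv_lhs => arg 2; rw [cV_eq z]
        rw [map_add, map_smul, map_smul]
        rfl
      have h3 : (((z.re ^ 2 : ℝ) : ℂ) - ff u (t * z) / (t * z) ^ 2 * z ^ 2) * z =
          ((2 / t ^ 2 : ℝ) : ℂ) * (((dd 0 u (t • cV z) : ℂ) - I * dd 1 u (t • cV z)) * z) := by
        have h4 : cV (t * z) = t • cV z := by rw [← real_smul, map_smul]
        rw [ff, re_ofReal_mul, h4]
        push_cast
        field_simp
        ring
      simp only [Function.comp]
      rw [h3, h2, re_ofReal_mul]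
      simp only [mul_re, sub_re, ofReal_re, I_re, zero_mul, I_im, ofReal_im, mul_zero, sub_zero,
        sub_im, mul_im, one_mul, zero_add, zero_sub]
      field_simp
      ring

end Pool.Agent.H257Z.SK
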