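import Mathlib

set_option autoImplicit false
open Complex Set Filter Metric Topology
open scoped Interval ComplexConjugate

namespace Pool.Agent.H257Z.SK

/-- boundary integral of a rectangle -/
noncomputable def bd (f : ℂ → ℂ) (a b c d : ℝ) : ℂ :=
  (∫ x : ℝ in a..b, f (x + c * I)) - (∫ x : ℝ in a..b, f (x + d * I)) +
    I • (∫ y : ℝ in c..d, f (b + y * I)) - I • (∫ y : ℝ in c..d, f (a + y * I))

theorem bd_zero {U : Set ℂ} {f : ℂ → ℂ} (hc : ContinuousOn f U)
    (hd : DifferentiableOn ℂ f (U ∩ {w | w.im ≠ 0})) {a b c d : ℝ}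
    (hs : [[a, b]] ×ℂ [[c, d]] ⊆ U) (h0 : (0 : ℝ) ∉ Ioo (min c d) (max c d)) :
    bd f a b c d = 0 := by
  have := integral_boundary_rect_eq_zero_of_continuousOn_of_differentiableOn f
    (a + c * I) (b + d * I) (by simpa using hc.mono hs) (by
      simp only [add_re, ofReal_re, mul_re, I_re, mul_zero, ofReal_im, I_im, mul_one, sub_self,
        add_zero, add_im, mul_im, zero_add]
      refine hd.mono fun w hw => ⟨hs ⟨Ioo_subset_Icc_self hw.1, Ioo_subset_Icc_self hw.2⟩, ?_⟩
      intro h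
      have h2 : w.im ∈ Ioo (min c d) (max c d) := hw.2
      rw [h] at h2
      exact h0 h2)
  simpa [bd] using this

theorem diff_off_real {U : Set ℂ} (hU : IsOpen U) {f : ℂ → ℂ} (hc : ContinuousOn f U)
    (hd : DifferentiableOn ℂ f (U ∩ {w | w.im ≠ 0})) : DifferentiableOn ℂ f U := by
  rw [← isConservativeOn_and_continuousOn_iff_isDifferentiableOn hU]
  refine ⟨fun z w hzw => ?_, hc⟩
  rw [← add_eq_zero_iff_eq_neg, wedgeIntegral_add_wedgeIntegral_eq]
  change bd f z.re w.re z.im w.im = 0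
  change [[z.re, w.re]] ×ℂ [[z.im, w.im]] ⊆ U at hzw
  by_cases h0 : (0 : ℝ) ∈ Ioo (min z.im w.im) (max z.im w.im)
  · have h0' : (0 : ℝ) ∈ [[z.im, w.im]] := Ioo_subset_Icc_self h0
    have s1 : [[z.im, 0]] ⊆ [[z.im, w.im]] := uIcc_subset_uIcc_left h0'
    have s2 : [[0, w.im]] ⊆ [[z.im, w.im]] := uIcc_subset_uIcc_right h0'
    have e1 : bd f z.re w.re z.im 0 = 0 := by
      refine bd_zero hc hd (fun u hu => hzw ⟨hu.1, s1 hu.2⟩) ?_
      rintro ⟨h1, h2⟩
      rw [min_lt_iff] at h1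
      rw [lt_max_iff] at h2
      rcases h1 with h1 | h1 <;> rcases h2 with h2 | h2 <;> linarith
    have e2 : bd f z.re w.re 0 w.im = 0 := by
      refine bd_zero hc hd (fun u hu => hzw ⟨hu.1, s2 hu.2⟩) ?_
      rintro ⟨h1, h2⟩
      rw [min_lt_iff] at h1
      rw [lt_max_iff] at h2
      rcases h1 with h1 | h1 <;> rcases h2 with h2 | h2 <;> linarith
    have key : ∀ x : ℝ, x ∈ [[z.re, w.re]] →
        (∫ y : ℝ in z.im..w.im, f (x + y * I)) =
          (∫ y : ℝ in z.im..0, f (x + y * I)) + ∫ y : ℝ in (0 : ℝ)..w.im, f (x + y * I) := by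
      intro x hx
      have hcx : ContinuousOn (fun y : ℝ => f (x + y * I)) [[z.im, w.im]] := by
        refine hc.comp (by fun_prop) fun y hy => hzw ⟨by simpa using hx, by simpa using hy⟩
      exact (intervalIntegral.integral_add_adjacent_intervals
        (hcx.mono s1).intervalIntegrable (hcx.mono s2).intervalIntegrable).symm
    unfold bd at e1 e2 ⊢
    rw [key z.re left_mem_uIcc, key w.re right_mem_uIcc]
    simp only [smul_eq_mul] at e1 e2 ⊢
    linear_combination e1 + e2
  · exact bd_zero hc hd hzw h0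

/-- closed upper half disc, without the arc -/
def HC (δ : ℝ) : Set ℂ := ball 0 δ ∩ {w | 0 ≤ w.im}

/-- open upper half disc -/
def HO (δ : ℝ) : Set ℂ := ball 0 δ ∩ {w | 0 < w.im}

theorem HO_sub (δ : ℝ) : HO δ ⊆ HC δ := fun _ h => ⟨h.1, le_of_lt (a := (0 : ℝ)) h.2⟩

theorem isOpen_HO (δ : ℝ) : IsOpen (HO δ) :=
  isOpen_ball.inter (isOpen_lt continuous_const continuous_im)

theorem HC_mono {δ η : ℝ} (h : δ ≤ η) : HC δ ⊆ HC η := fun _ hw => ⟨ball_subset_ball h hw.1, hw.2⟩

theorem HO_mono {δ η : ℝ} (h : δ ≤ η) : HO δ ⊆ HO η := fun _ hw => ⟨ball_subset_ball h hw.1, hw.2⟩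

theorem real_mem_HC {δ t : ℝ} (h : |t| < δ) : (t : ℂ) ∈ HC δ :=
  ⟨by simpa using h, by simp⟩

/-- Schwarz reflection -/
theorem reflect {δ : ℝ} {f : ℂ → ℂ} (hc : ContinuousOn f (HC δ))
    (hd : DifferentiableOn ℂ f (HO δ)) (hr : ∀ t : ℝ, |t| < δ → (f t).im = 0) :
    ∃ F : ℂ → ℂ, DifferentiableOn ℂ F (ball 0 δ) ∧ EqOn F f (HC δ) := by
  classical
  refine ⟨fun w => if 0 ≤ w.im then f w else conj (f (conj w)), ?_, fun w hw => if_pos hw.2⟩
  refine diff_off_real isOpen_ball ?_ ?_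
  · refine ContinuousOn.if ?_ ?_ ?_
    · rintro a ⟨ha1, ha2⟩
      rw [frontier_setOfPred_le_im] at ha2
      have ha3 : a.im = 0 := ha2
      have e : a = (a.re : ℂ) := by apply Complex.ext <;> simp [ha3]
      have hn : |a.re| < δ := lt_of_le_of_lt (abs_re_le_norm a) (by simpa using ha1)
      rw [e, conj_ofReal]
      exact (conj_eq_iff_im.2 (hr _ hn)).symm
    · rw [(isClosed_le continuous_const continuous_im).closure_eq]
      exact hc
    · simp only [not_le]
      rw [closure_setOfPred_im_lt]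
      refine continuous_conj.comp_continuousOn (hc.comp continuous_conj.continuousOn ?_)
      rintro w ⟨h1, h2⟩
      refine ⟨by simpa using h1, ?_⟩
      have : w.im ≤ 0 := h2
      simpa using this
  · rintro w ⟨h1, h2⟩
    refine DifferentiableAt.differentiableWithinAt ?_
    rcases lt_or_gt_of_ne (show w.im ≠ 0 from h2) with h | h
    · have hw : conj w ∈ HO δ := ⟨by simpa using h1, by simpa using h⟩
      have h3 := (hd.differentiableAt ((isOpen_HO δ).mem_nhds hw)).conj_conj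
      rw [conj_conj] at h3
      refine h3.congr_of_eventuallyEq ?_
      filter_upwards [(isOpen_lt continuous_im continuous_const).mem_nhds h] with u hu
      rw [if_neg (not_le.2 hu)]
      rfl
    · have hw : w ∈ HO δ := ⟨h1, h⟩
      refine (hd.differentiableAt ((isOpen_HO δ).mem_nhds hw)).congr_of_eventuallyEq ?_
      filter_upwards [(isOpen_lt continuous_const continuous_im).mem_nhds h] with u hu
      rw [if_pos (le_of_lt hu)]

end Pool.Agent.H257Z.SK
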